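import Pool.Agent.H121.GA.Fin
import Pool.Agent.H155.GA.RuA
import Pool.Agent.H619.GA.NetU
import Pool.Agent.H190.GA.Closeb
import Pool.Agent.H287.GA.Net
import Pool.Agent.H721.GA.Covb
import Pool.Agent.H860.GA.Clip
import Pool.Agent.H870.GA.RuB
import Pool.Agent.H803.GA.WeyB
import Pool.Agent.H196.GA.Near
import Pool.Agent.H722.GA.Atom
import Pool.Agent.H722.GA.Gaus

/-! Project GA: the theorem without hypotheses. -/

set_option autoImplicit false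

open scoped BigOperators
open MeasureTheory

namespace Pool.Agent.H121.GA

open Pool.Agent.Y662.TR (dv LL)
open Pool.Agent.H987.Y
open Pool.Agent.H987.Z (SqS IsSp)
open Pool.Agent.H121.MY (HamT PPi ACo)

theorem netU_ok : S_netU := by
  have hg := Pool.Agent.H304.Z987.green
  have h1 := Pool.Agent.H284.Z987.hutri
  have hop := Pool.Agent.H168.Y987.op
  have heqv := Pool.Agent.H215.Y987.eqv hop
  have hmeas := Pool.Agent.H800.Y987.meas hop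
  have htr := Pool.Agent.H410.Y987.troot hop
  have hsep := Pool.Agent.H796.Y987.sep
  have hopb := Pool.Agent.H100.GA.opb
  exact Pool.Agent.H619.GA.netU hopb Pool.Agent.H860.GA.clip
    (Pool.Agent.H287.GA.netb hop hopb heqv hmeas htr hsep Pool.Agent.H721.GA.covb
      (Pool.Agent.H323.Y987.fold Pool.Agent.H578.Y987.tile Pool.Agent.H383.Z987.word) hg
      Pool.Agent.H784.Z987.mom h1)

/-- **the theorem** -/
theorem main (d : ℕ) (hd : 1 ≤ d) (hd2 : d ≠ 2) (ε : ℝ) (hε : 0 < ε) :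
    ∃ (κ σ0 σ1 : ℝ) (A : (Fin d → ℤ) → (Fin d → ℤ) → ℝ), 0 < κ ∧ κ ≤ ε ∧ 0 < σ0 ∧ 0 < σ1 ∧
      (∀ x y, 0 ≤ A x y) ∧ (∀ x y, A x y = A y x) ∧ (∀ x, HasSum (fun y => A x y) κ) ∧
      (∀ p : ℝ, 0 < p → ∃ S : ℝ, ∀ x, (Summable fun y => A x y ^ p) ∧ ∑' y, A x y ^ p ≤ S) ∧
      (∀ δ : ℝ, 0 < δ → ∃ (N R : ℕ) (B : (Fin d → ℤ) → (Fin d → ℤ) → ℝ), 0 < N ∧
        (∀ x y v, B (x + (N : ℤ) • v) (y + (N : ℤ) • v) = B x y) ∧
        (∀ x y, B x y ≠ 0 → ∀ i, |x i - y i| ≤ R) ∧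
        ∀ x, (Summable fun y => |A x y - B x y|) ∧ ∑' y, |A x y - B x y| ≤ δ) ∧
      (∀ (σ : ℝ) (ω : Lt d → ℝ), SAd (HamT A σ ω) ∧
        ∀ f : Lt d → ℂ, SqS f → ∃ m : Measure ℝ, IsSp (HamT A σ ω) f m) ∧
      (∀ σ : ℝ, σ1 ≤ |σ| → ∀ᵐ ω ∂(Measure.infinitePi fun _ : Lt d => γ),
        PPi (HamT A σ ω) Set.univ ∧ ∀ x y : ℝ, x < y → EXi (HamT A σ ω) (Set.Ioo x y)) ∧
      (∀ σ : ℝ, σ ≠ 0 → |σ| ≤ σ0 → ∀ᵐ ω ∂(Measure.infinitePi fun _ : Lt d => γ),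
        PPi (HamT A σ ω) {E | 2 * d + ε ≤ |E|} ∧
        ∀ x y : ℝ, x < y → Set.Ioo x y ⊆ {E | 2 * d + ε ≤ |E|} → EXi (HamT A σ ω) (Set.Ioo x y)) ∧
      (∀ σ : ℝ, σ ≠ 0 → ∃ e : ℝ, 0 < e ∧ ∀ᵐ ω ∂(Measure.infinitePi fun _ : Lt d => γ),
        PPi (HamT A σ ω) {E | e ≤ |E|} ∧
        ∀ x y : ℝ, x < y → Set.Ioo x y ⊆ {E | e ≤ |E|} → EXi (HamT A σ ω) (Set.Ioo x y)) ∧
      (∀ᵐ σ ∂(volume.restrict (Set.Icc (-σ0) σ0)),
        ∀ᵐ ω ∂(Measure.infinitePi fun _ : Lt d => γ),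
          ACo (HamT A σ ω) (-(2 * d - ε)) (2 * d - ε) fun x y => dv x y) := by
  have hru := Pool.Agent.H155.GA.ruA
  have hrf := Pool.Agent.H870.GA.ruB hru
  exact main0 (Pool.Agent.H190.GA.closeb Pool.Agent.H196.GA.near Pool.Agent.H100.GA.opb) netU_ok
    hru hrf (Pool.Agent.H722.GA.atom hru hrf) Pool.Agent.H803.GA.weyB Pool.Agent.H722.GA.gaus d hd
    hd2 ε hε

end Pool.Agent.H121.GA
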