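import Pool.Agent.H121.GA.Lim
import Pool.Agent.H121.MY.Fin

/-! Project GA: absolutely continuous spectrum at weak disorder, for unbounded potentials. -/

set_option autoImplicit false
set_option linter.unusedSectionVars false

open scoped BigOperators InnerProductSpace Topology ENNReal
open Filter MeasureTheory

namespace Pool.Agent.H121.GA

open Pool.Agent.Y662.TR (LL Cf Mw dv hu hu_nonneg clp clp_eq clp_abs lmk ll_inner ll_ext
  ll_summable dv_apply sub_coord smul_coord Mw_apply add_coord)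
open Pool.Agent.TH369.AN (Rz rz_eq rz_uniq)
open Pool.Agent.H987.Z (Rs Gr Fr gZ HV S_green SqS IsSp Bd hu_meas free_ok S_free1 S_free2 S_free3)
open Pool.Agent.H987.Y
open Pool.Agent.H121.MY (S_gauge Cls cls_of HamT adj kt kt_ker adj_act ACo aff map_aff vol_aff
  ker_sum)

/-- reflection of the energy -/
theorem aco_neg {X : Type} (H H' : (X → ℂ) → X → ℂ) (b : ℝ)
    (hH : ∀ u : X → ℂ, SqS u → ∀ x, H u x = -H' u x + (b : ℂ) * u x)
    (hn : ∀ u : X → ℂ, ∀ x, H' (fun y => -u y) x = -H' u x)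
    (hn' : ∀ u : X → ℂ, ∀ x, H (fun y => -u y) x = -H u x) (α β : ℝ)
    (δ : X → X → ℂ) (h : ACo H' α β δ) : ACo H (b - β) (b - α) δ := by
  have e1 : ∀ u : X → ℂ, SqS u → ∀ x, H u x = ((-1 : ℝ) : ℂ) * H' u x + (b : ℂ) * u x := by
    intro u hu x
    rw [hH u hu]
    push_cast
    ring
  have e1' : ∀ u : X → ℂ, SqS u → ∀ x, H' u x = ((-1 : ℝ) : ℂ) * H u x + (b : ℂ) * u x := by
    intro u hu x
    rw [hH u hu]
    push_cast
    ring
  have e2 : ∀ u : X → ℂ, ∀ x, H' (fun y => ((-1 : ℝ) : ℂ) * u y) x = ((-1 : ℝ) : ℂ) * H' u x := by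
    intro u x
    have := hn u x
    simpa using this
  have e2' : ∀ u : X → ℂ, ∀ x, H (fun y => ((-1 : ℝ) : ℂ) * u y) x = ((-1 : ℝ) : ℂ) * H u x := by
    intro u x
    have := hn' u x
    simpa using this
  obtain ⟨h1, h2, h3⟩ := h
  have hsub : ∀ E : Set ℝ, E ⊆ Set.Icc (b - β) (b - α) →
      (fun t : ℝ => -1 * t + b) ⁻¹' E ⊆ Set.Icc α β := by
    intro E hE t ht
    have := hE ht
    exact ⟨by linarith [this.2], by linarith [this.1]⟩
  refine ⟨fun f hf => ?_, fun f m hf hm E hE hE0 => ?_, fun x m hm E hE hEm hE0 => ?_⟩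
  · obtain ⟨m, hm⟩ := h1 f hf
    exact ⟨_, aff H' H (-1) b (Or.inr rfl) e1' e2' f m hm⟩
  · have h4 := aff H H' (-1) b (Or.inr rfl) e1 e2 f m hm
    rw [← map_aff m (-1) b (Or.inr rfl) E]
    exact h2 f _ hf h4 _ (hsub E hE) (vol_aff (-1) b (Or.inr rfl) E hE0)
  · have h4 := aff H H' (-1) b (Or.inr rfl) e1 e2 _ m hm
    rw [← map_aff m (-1) b (Or.inr rfl) E] at hE0
    have h5 := h3 x _ h4 _ (hsub E hE) ((by fun_prop : Measurable fun t : ℝ => -1 * t + b) hEm) hE0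
    have h6 : (fun t : ℝ => -1 * t + b) = (fun t => t + b) ∘ Neg.neg := by
      funext t
      simp
    rw [h6, Set.preimage_comp, Measure.measure_preimage_neg, measure_preimage_add_right] at h5
    exact h5

theorem hamy_neg {d : ℕ} (A : Lt d → Lt d → ℝ) (lam : ℝ) (ω : Lt d → ℝ) (u : Lt d → ℂ) (x : Lt d) :
    HamY A lam ω (fun y => -u y) x = -HamY A lam ω u x := by
  unfold HamY
  have h1 : ∑' y, ((A x y : ℝ) : ℂ) * -u y = -∑' y, ((A x y : ℝ) : ℂ) * u y := by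
    rw [← tsum_neg]
    exact tsum_congr fun y => by ring
  have h2 : ∑ i : Fin d, ((-u (x + Pi.single i 1) - -u x) + (-u (x - Pi.single i 1) - -u x)) =
      -∑ i : Fin d, ((u (x + Pi.single i 1) - u x) + (u (x - Pi.single i 1) - u x)) := by
    rw [← Finset.sum_neg_distrib]
    exact Finset.sum_congr rfl fun i _ => by ring
  rw [h1, h2]
  ring

theorem hamt_neg {d : ℕ} (A : Lt d → Lt d → ℝ) (lam : ℝ) (ω : Lt d → ℝ) (u : Lt d → ℂ) (x : Lt d) :
    HamT A lam ω (fun y => -u y) x = -HamT A lam ω u x := by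
  unfold HamT
  have h1 : ∑' y, ((A x y : ℝ) : ℂ) * -u y = -∑' y, ((A x y : ℝ) : ℂ) * u y := by
    rw [← tsum_neg]
    exact tsum_congr fun y => by ring
  have h2 : ∑ i : Fin d, (-u (x + Pi.single i 1) + -u (x - Pi.single i 1)) =
      -∑ i : Fin d, (u (x + Pi.single i 1) + u (x - Pi.single i 1)) := by
    rw [← Finset.sum_neg_distrib]
    exact Finset.sum_congr rfl fun i _ => by ring
  rw [h1, h2]
  ring

/-- `HamT A lam ω = - HamY (-A) lam (-ω) + 2 d` -/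
theorem hamt_hamy {d : ℕ} (A : Lt d → Lt d → ℝ) (lam : ℝ) (ω : Lt d → ℝ) (u : Lt d → ℂ) (x : Lt d) :
    HamT A lam ω u x = -HamY (fun x y => -A x y) lam (fun p => -ω p) u x +
      ((2 * (d : ℝ) : ℝ) : ℂ) * u x := by
  unfold HamT HamY
  have h1 : ∑' y, (((-A x y : ℝ)) : ℂ) * u y = -∑' y, ((A x y : ℝ) : ℂ) * u y := by
    rw [← tsum_neg]
    exact tsum_congr fun y => by push_cast; ring
  have h2 : ∑ i : Fin d, ((u (x + Pi.single i 1) - u x) + (u (x - Pi.single i 1) - u x)) =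
      ∑ i : Fin d, (u (x + Pi.single i 1) + u (x - Pi.single i 1)) - 2 * (d : ℂ) * u x := by
    have h3 : 2 * (d : ℂ) * u x = ∑ _i : Fin d, 2 * u x := by
      rw [Finset.sum_const, Finset.card_univ, Fintype.card_fin, nsmul_eq_mul]
      ring
    rw [h3, ← Finset.sum_sub_distrib]
    exact Finset.sum_congr rfl fun i _ => by ring
  rw [h1, h2]
  push_cast
  ring

set_option maxHeartbeats 1000000 in
/-- **weak disorder** -/
theorem weakG (hop : S_op) (hopb : S_opb) (hmeas : S_meas) (hac : S_acR) (hg : S_green)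
    (hru : S_ruA) (hrf : S_ruB) (hsite : S_site) (hmU : S_mU)
    (hgau : S_gauge) (hboot : S_bootk) (hclose : S_closeb) (hnet : S_netU) (hfree : S_free)
    (hsep : S_sep) (hdig : S_dig) (hA : S_hullA) (hB : S_hullBb) (hkact : S_kact) (hf1 : S_free1)
    (hf2 : S_free2) (hf3 : S_free3)
    (d : ℕ) (hd : 1 ≤ d) (α β : ℝ) (hα : 0 < α) (hαβ : α ≤ β) (hβ : β < 4 * d)
    (h2 : d = 2 → β < 4 ∨ 4 < α) (ε : ℝ) (hε : 0 < ε)
    (μ : Measure ℝ) [IsProbabilityMeasure μ]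
    (hμ : ∀ δ : ℝ, 0 < δ → ∃ l0 : ℝ, 0 < l0 ∧ ∀ t : ℝ, |t| ≤ l0 → Ms δ (μ.map fun v => t * v)) :
    ∃ (l0 : ℝ) (a m : ℕ → ℝ) (A : Lt d → Lt d → ℝ), 0 < l0 ∧ (∀ k, 0 < a k) ∧ (∀ k, 1 ≤ m k) ∧
      (∀ p : ℝ, 0 < p → Summable fun k => a k ^ p * m k) ∧ (Summable fun k => a k * m k) ∧
      ∑' k, a k * m k ≤ ε ∧ Cls d a m A ∧
        ∀ᵐ lam ∂(volume.restrict (Set.Ioc 0 l0)),
          ∀ᵐ ω ∂(Measure.infinitePi fun _ : Lt d => μ),
            ACo (HamY (fun x y => -A x y) lam ω) α β fun x y => dv x y := by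
  classical
  obtain ⟨α', β', cc, CC, hα', hβ', hF⟩ := free_ok hf1 hf2 hf3 d hd α β hα hβ h2
  obtain ⟨α1, hα1⟩ : ∃ α1 : ℝ, α1 = (α + α') / 2 := ⟨_, rfl⟩
  obtain ⟨β1, hβ1⟩ : ∃ β1 : ℝ, β1 = (β + β') / 2 := ⟨_, rfl⟩
  obtain ⟨d', rfl⟩ : ∃ d', d = d' + 1 := ⟨d - 1, by omega⟩
  obtain ⟨lam0, Q, M, R, a, σ, hl0, hl1, hQ0, hinv, ha0, hs1, hs2, hs3, hnt, hmain⟩ :=
    iterG hopb hgau hboot hclose hnet hfree hsep hA hB d' α1 β1 α' β' cc CC ε
      (by linarith) (by linarith) (by linarith) hF hε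
  obtain ⟨l0, hl00, hMs⟩ := hμ lam0 hl0
  obtain ⟨Ak, hAk⟩ : ∃ Ak : ℕ → Lt (d' + 1) → Lt (d' + 1) → ℝ,
      Ak = fun k x y => -a k * kσ (σ k) x y := ⟨_, rfl⟩
  have hnt' : ∀ k, Net (pQ Q (k + 1)) (R k) (a k * (M k + 1)) (Ak k) := by
    intro k
    rw [hAk]
    exact hnt k
  obtain ⟨u1, u2, u3, u4, u5, u6⟩ := hA (d' + 1) Q Ak (fun k => a k * (M k + 1)) R hQ0 hnt' hs1
  obtain ⟨hPH, -, -⟩ := hdig (d' + 1) Q hQ0
  rw [← hAk] at hmain
  obtain ⟨h, hh⟩ : ∃ h : ℝ, h = 4 * ((d' + 1 : ℕ) : ℝ) + ∑' k, a k * ((M k : ℝ) + 1) := ⟨_, rfl⟩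
  rw [← hh] at u2
  have hκ0 : 0 ≤ ∑' k, a k * ((M k : ℝ) + 1) := tsum_nonneg fun k => by
    have := ha0 k
    positivity
  -- the random operators
  have hh0 : 0 ≤ h := by
    rw [hh]
    positivity
  obtain ⟨Pl, hPl⟩ : ∃ Pl : Measure ℝ, Pl = (volume (Set.Ioc 0 l0))⁻¹ •
      volume.restrict (Set.Ioc 0 l0) := ⟨_, rfl⟩
  have hvol : volume (Set.Ioc 0 l0) ≠ 0 := by
    rw [Real.volume_Ioc, sub_zero]
    simpa using hl00
  have hvol2 : volume (Set.Ioc 0 l0) ≠ ⊤ := by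
    rw [Real.volume_Ioc]
    exact ENNReal.ofReal_ne_top
  have hPlp : IsProbabilityMeasure Pl := by
    refine ⟨?_⟩
    rw [hPl, Measure.smul_apply, Measure.restrict_apply_univ, smul_eq_mul,
      ENNReal.inv_mul_cancel hvol hvol2]
  have hPlae : ∀ {p : ℝ → Prop}, (∀ᵐ t ∂Pl, p t) ↔ ∀ᵐ t ∂(volume.restrict (Set.Ioc 0 l0)), p t := by
    intro p
    rw [hPl, Measure.ae_ennreal_smul_measure_iff (ENNReal.inv_ne_zero.2 hvol2)]
  have hPlI : ∀ᵐ t ∂Pl, t ∈ Set.Ioc 0 l0 := by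
    rw [hPlae]
    exact ae_restrict_mem measurableSet_Ioc
  obtain ⟨K, hKd⟩ : ∃ K : Hu (d' + 1) Q → Lt (d' + 1) → Lt (d' + 1) → ℝ,
      K = fun u x y => kf (d' + 1) x y + tA Ak u x y := ⟨_, rfl⟩
  have hK : ∀ u, Ker h (K u) := by
    rw [hKd]
    exact u2
  have hKm : ∀ x x', Measurable fun u => K u x x' := by
    intro x x'
    rw [hKd]
    exact measurable_const.add (u3 x x')
  have hKrs : ∀ u, Rs (Op (K u)) := fun u => (hop _ _ _ (hK u)).2.2.1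
  have hmain' : ∀ b : ℝ, 1 ≤ b → ∀ (ν : Measure ℝ) [IsProbabilityMeasure ν], Ms lam0 ν →
      ∀ z : ℂ, α1 ≤ z.re → z.re ≤ β1 → 0 < z.im → z.im ≤ 1 → ∀ x : Lt (d' + 1),
        ∫ q, hu (Gr (Op (krb K b q)) z x x) (gZ (d' + 1) z) ^ 2
          ∂((PH (d' + 1) Q).prod (Measure.infinitePi fun _ : Lt (d' + 1) => ν)) ≤ 1 / 100 := by
    rw [hKd]
    exact hmain
  have hae := hac (Lt (d' + 1)) _
    (Pl.prod ((PH (d' + 1) Q).prod (Measure.infinitePi fun _ : Lt (d' + 1) => μ)))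
    (fun q => RU (Op (K q.2.1)) fun y => q.1 * q.2.2 y)
    (gZ (d' + 1)) α1 β1 cc CC (1 / 100) (fun q => hrf _ _ (hKrs q.2.1) _)
    (fun z x y hz => hmU.2 (Lt (d' + 1)) _
      (fun q : ℝ × Hu (d' + 1) Q × (Lt (d' + 1) → ℝ) => K q.2.1) h
      (fun q y => q.1 * q.2.2 y) (fun q => hK q.2.1)
      (fun x y => (hKm x y).comp (measurable_fst.comp measurable_snd))
      (fun x => measurable_fst.mul ((measurable_pi_apply x).comp
        (measurable_snd.comp measurable_snd))) z x y hz)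
    (gZ_cont hop hg hfree (d' + 1))
    hF.c0 (fun q z x hz => ((hsite _ _ (hKrs q.2.1)).1 _ z x x hz).1)
    (fun z y1 y2 y3 y4 => ⟨hF.lo z (by linarith) (by linarith) y3 (by linarith),
      hF.up z (by linarith) (by linarith) y3 (by linarith)⟩)
    (fun z y1 y2 y3 y4 x => lint_bound K hop hopb hmeas hg hru hsite hmU (PH (d' + 1) Q) h hh0 hK
      hKm μ lam0 (1 / 100) z (gZ (d' + 1) z) y3
      (hF.c0.trans_le (hF.lo z (by linarith) (by linarith) y3 (by linarith))) x l0 hMs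
      (fun b hb ν _ hν => hmain' b hb ν hν z y1.le y2.le y3 y4 x) Pl hPlI)
  -- rearrange
  have hae4 := ae_rearr (PH (d' + 1) Q) (Measure.infinitePi fun _ : Lt (d' + 1) => μ) Pl _ hae
  obtain ⟨u, hu'⟩ := hae4.exists
  rw [hPlae] at hu'
  obtain ⟨hcls, hneg⟩ := cls_of hA Q M R a σ hQ0 ha0 hs1 hs3 hnt u
  obtain ⟨A, hAd⟩ : ∃ A, A = tA (fun k x y => a k * kσ (σ k) x y) u := ⟨_, rfl⟩
  rw [← hAd] at hcls hneg
  rw [← hAk] at hneg
  have hAn : tA Ak u = fun x y => -A x y := by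
    funext x y
    exact hneg x y
  have hdv : ∀ p : Lt (d' + 1), SqS (fun x => (dv p : LL (Lt (d' + 1))) x) := fun p =>
    ll_summable _
  refine ⟨l0, a, fun k => (M k : ℝ) + 1, A, hl00, ha0, fun k => by simp, hs3, hs1, hs2, hcls, ?_⟩
  filter_upwards [hu', ae_restrict_mem measurableSet_Ioc] with t ht htI
  filter_upwards [ht] with ω h5
  obtain ⟨h6, h7⟩ := h5
  rw [← hAn]
  have hAct : ∀ (v : LL (Lt (d' + 1))) (p : Lt (d' + 1)),
      HamY (tA Ak u) t ω (fun y => v y) p =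
        Op (K u) v p + (((t * ω p : ℝ)) : ℂ) * v p := by
    intro v p
    have h8 := act hop hkact (u1 u) (u2 u) v p
    rw [hKd]
    simp only
    rw [h8]
    rfl
  refine ⟨fun f hf => ?_, fun f m hf hm E hE1 hE2 => ?_, fun p m hm E hE1 hE2 hE3 => ?_⟩
  · obtain ⟨m, hm, -⟩ := (hrf _ _ (hKrs u) fun y => t * ω y).sp (lmk f hf)
    exact ⟨m, of_spr hru _ _ (hKrs u) (fun y => t * ω y) hAct f hf m hm⟩
  · refine h6 _ m (spr_of hru _ _ (hKrs u) (fun y => t * ω y) hAct f hf m hm) E (hE1.trans ?_) hE2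
    intro y hy
    exact ⟨by linarith [hy.1], by linarith [hy.2]⟩
  · have h8 := spr_of hru _ _ (hKrs u) (fun y => t * ω y) hAct _ (hdv p) m hm
    have h9 : lmk (fun x => (dv p : LL (Lt (d' + 1))) x) (hdv p) = dv p := rfl
    rw [h9] at h8
    refine h7 p m h8 E (hE1.trans ?_) hE2 hE3
    intro y hy
    exact ⟨by linarith [hy.1], by linarith [hy.2]⟩

end Pool.Agent.H121.GA
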