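import Pool.Agent.H121.GA.IfA
import Pool.Agent.H121.ME.Fm
import Pool.Agent.H121.MY.Edge
import Mathlib.Probability.Distributions.Gaussian.Real

/-! Project GA (Gaussian disorder on the lattice), part B: unbounded potentials. -/

set_option autoImplicit false

open scoped BigOperators InnerProductSpace Topology ENNReal
open Filter MeasureTheory

namespace Pool.Agent.H121.GA

open Pool.Agent.Y662.TR (LL Cf Mw dv hu clp)
open Pool.Agent.TH369.AN (Rz)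
open Pool.Agent.TH369.MU (SpM ep zk)
open Pool.Agent.H987.Z (Rs Gr Fr gZ HV)
open Pool.Agent.H987.Y
open Pool.Agent.H121.Z987 (wt)
open Pool.Agent.H121.ME (Qw Dec Gra)

section defs

variable {ι : Type}

/-- `m` is the spectral measure of `φ` for the family `R` of resolvents -/
def SpR (R : ℂ → LL ι →L[ℂ] LL ι) (φ : LL ι) (m : Measure ℝ) : Prop :=
  IsFiniteMeasure m ∧ ∀ z : ℂ, z.im ≠ 0 → ⟪φ, R z φ⟫_ℂ = ∫ x : ℝ, ((x : ℂ) - z)⁻¹ ∂m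

/-- resolvent families (of self-adjoint real symmetric operators, possibly unbounded) -/
structure Rf (R : ℂ → LL ι →L[ℂ] LL ι) : Prop where
  nb : ∀ z : ℂ, z.im ≠ 0 → ‖R z‖ ≤ 1 / |z.im|
  id : ∀ z w : ℂ, z.im ≠ 0 → w.im ≠ 0 → ∀ u : LL ι, R z u - R w u = (z - w) • R z (R w u)
  ad : ∀ z : ℂ, z.im ≠ 0 → ∀ u v : LL ι, ⟪R z u, v⟫_ℂ = ⟪u, R (starRingEnd ℂ z) v⟫_ℂ
  sy : ∀ z : ℂ, z.im ≠ 0 → ∀ x y : ι, R z (dv y) x = R z (dv x) y
  sp : ∀ φ : LL ι, ∃ m : Measure ℝ, SpR R φ m ∧ m Set.univ = ENNReal.ofReal (‖φ‖ ^ 2)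

/-- the resolvent of `T + V`, `V` an arbitrary real potential (as the norm limit of the resolvents of
`T + V` with `V` clipped to `[-n, n]`) -/
noncomputable def RU (T : LL ι →L[ℂ] LL ι) (V : ι → ℝ) (z : ℂ) : LL ι →L[ℂ] LL ι :=
  limUnder atTop fun n : ℕ => Rz (HW T (n : ℝ) V) z

/-- the Green function of `T + V` -/
noncomputable def GU (T : LL ι →L[ℂ] LL ι) (V : ι → ℝ) (z : ℂ) (x y : ι) : ℂ := RU T V z (dv y) x

/-- the part of the averaged second moment outside of the finite set `F`, with the weight `w` -/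
noncomputable def TR (w : ℝ → ℝ) (R : ℂ → LL ι →L[ℂ] LL ι) (y : ι) (F : Finset ι) (k : ℕ) : ℝ≥0∞ :=
  ∫⁻ E, ∑' x : {x : ι // x ∉ F}, ENNReal.ofReal (ep k * ‖R (zk E k) (dv y) x‖ ^ 2) ∂(Qw w)

end defs

/-- laws with a density at most `D / (1 + |v|)^4` -/
def Dd (D : ℝ) (μ : Measure ℝ) : Prop :=
  ∀ A : Set ℝ, MeasurableSet A → μ A ≤ ∫⁻ v in A, ENNReal.ofReal (D / (1 + |v|) ^ 4)

/-- **GA-RUA (the resolvent of `T + V`).**

Proof. `R_b = Rz (HW T b V) z`, `η = |Im z|`, `L = 1 + (‖z‖ + ‖T‖)/η`; `Mw b V` is the multiplication by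
`clp b (V x)` (`Mw_apply`), `|clp b t| = b` if `|t| ≥ b`, `clp b t = t` if `|t| ≤ b` (`clp_eq`).
(a) `‖Mw b V (R_b f)‖ ≤ L ‖f‖`: `Mw b V u = f + z u - T u` for `u = R_b f` (`rz_eq`), `‖u‖ ≤ ‖f‖/η` (`rz_norm`).
(b) For `0 < b ≤ b'`: `|clp b' t - clp b t| ≤ |clp b' t|` and it vanishes if `|t| ≤ b`; and `b |u x| ≤
|clp b (V x)| |u x|` if `|V x| > b`. With `D = Mw b' V - Mw b V`: `‖D R_{b'} f‖ ≤ L ‖f‖`, and for
`f, g`: `⟪g, (R_b - R_{b'}) f⟫ = ⟪R_b(z̄) g, D R_{b'} f⟫` which is at most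
`‖1_{|V| > b} R_b(z̄) g‖ ‖D R_{b'} f‖ ≤ (L/b) ‖g‖ L ‖f‖` (by (a) for `z̄`). So `‖R_b - R_{b'}‖ ≤ L²/b`.
(c) Hence `R_n` is a Cauchy sequence, the limit `RU` exists (`tendsto_nhds_limUnder`), and letting
`b' = n → ∞` in (b) gives the first item. (d) Second item: evaluate `T u_n + clp n V · u_n - z u_n = f` at
`x`, `u_n = R_n f → u`; `clp n (V x) = V x` for large `n`. (e) Uniqueness: let `w = u - RU T V z f`, then
`V x * w x = z w x - (T w) x` for all `x`, so `∑ V x |w x|²` converges absolutely and is real,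
`⟪w, T w⟫` is real, hence `z ‖w‖²` is real and `w = 0`. -/
def S_ruA : Prop :=
  ∀ (ι : Type) (T : LL ι →L[ℂ] LL ι), Rs T → ∀ (V : ι → ℝ) (z : ℂ), z.im ≠ 0 →
    (∀ b : ℝ, 0 < b → ‖Rz (HW T b V) z - RU T V z‖ ≤ (1 + (‖z‖ + ‖T‖) / |z.im|) ^ 2 / b) ∧
    (Tendsto (fun n : ℕ => Rz (HW T (n : ℝ) V) z) atTop (𝓝 (RU T V z))) ∧
    (∀ (f : LL ι) (x : ι), T (RU T V z f) x + ((V x : ℝ) : ℂ) * RU T V z f x - z * RU T V z f x =
      f x) ∧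
    ∀ f u : LL ι, (∀ x, T u x + ((V x : ℝ) : ℂ) * u x - z * u x = f x) → u = RU T V z f

/-- **GA-RUB (spectral measures).** You may assume `S_ruA` (hypothesis).

Proof. The first four items of `Rf`: limits (`n → ∞`) of the same facts for `Rz (HW T n V)` (see
`rz_norm`, `rz_sub'`, `Gr_symm` in `Pool/Agent/H304/Z987/Green.lean`, the resolvent identity
`Gr_sub_z_le` there; `Rs (HW T b V)` as `HH_rs` in `Pool/Agent/H121/Z987/Op.lean`). The last one: let `m_n` be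
the spectral measure of `φ` for `HW T n V` (`spm_exists` in `Pool.Agent.TH369.MU`; mass `‖φ‖²`),
`F_n(z) = ⟪φ, Rz (HW T n V) z φ⟫ → F(z) = ⟪φ, RU T V z φ⟫`.
(1) `η Im F(iη) → ‖φ‖²` as `η → ∞`: `i η R(iη) ψ + ψ → 0` for all `ψ`; for a finitely supported `ψ` one has
`(iη R(iη) + 1) ψ = R(iη) h` with `h = T ψ + V ψ` (by the uniqueness in `S_ruA`: `u = R(iη) ψ` satisfies ...),
so the norm is at most `‖h‖/η`; the norm of `iη R(iη) + 1` is at most `2`, finitely supported `ψ` are dense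
(`approx` in `Pool.Agent.Y662.TR`).
(2) Tightness: `∫ η²/(t² + η²) dm_n = η Im F_n(iη)`; given `δ` choose `η` with `η Im F(iη) ≥ ‖φ‖² - δ`, then
`η Im F_n(iη) ≥ ‖φ‖² - 2δ` for `n ≥ n0`, so `m_n {|t| ≥ M η} (1 - 1/(1+M²)) ≤ 2 δ`; the finitely many
other `n` are harmless. (3) Prokhorov (Mathlib: `isCompact_closure_of_isTightMeasureSet`; search
`IsTightMeasureSet`; normalize to probability measures, `φ ≠ 0`): a subsequence converges weakly to `m` of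
the same mass, `∫ (t - z)⁻¹ dm = lim F_n(z) = F(z)` (bounded continuous function). -/
def S_ruB : Prop :=
  ∀ (ι : Type) (T : LL ι →L[ℂ] LL ι), Rs T → ∀ V : ι → ℝ, Rf (RU T V)

open Classical in
/-- **GA-SITE (the Green function of `T + V`).** You may assume `S_ruA`. Compare `coord_im`, `Gr_im_pos`,
`rank_one`, `site`, `eqn` in `Pool/Agent/H121/Z987/{Op,Mom}.lean` (the same for bounded potentials; items
(1), (2) can be obtained by letting `n → ∞` except for the strict positivity, which follows from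
`Im ⟪f, RU f⟫ = Im z ‖RU f‖²` and the pointwise equation). -/
def S_site : Prop :=
  ∀ (ι : Type) (T : LL ι →L[ℂ] LL ι), Rs T →
    (∀ (V : ι → ℝ) (z : ℂ) (x y : ι), 0 < z.im → 0 < (GU T V z x x).im ∧
      z.im * ‖GU T V z x y‖ ^ 2 ≤ (GU T V z x x).im ∧ ‖GU T V z x y‖ ≤ 1 / z.im) ∧
    (∀ (lam : ℝ) (ω : ι → ℝ) (z : ℂ) (x y : ι) (v : ℝ), 0 < z.im →
      GU T (fun p => lam * Function.update ω x v p) z x y =
        GU T (fun p => lam * Function.update ω x 0 p) z x y /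
          (1 + (lam : ℂ) * (v : ℂ) * GU T (fun p => lam * Function.update ω x 0 p) z x x)) ∧
    ∀ (V : ι → ℝ) (z : ℂ) (s : ℝ) (x y : ι), z.im ≠ 0 → 0 < s → s ≤ 1 →
      ‖((V x : ℝ) : ℂ) - z‖ₑ ^ s * ‖GU T V z x y‖ₑ ^ s ≤
        (‖(dv y : LL ι) x‖ₑ) ^ s + ∑' u, ‖T (dv x) u‖ₑ ^ s * ‖GU T V z u y‖ₑ ^ s

/-- **GA-MEAS.** You may assume `S_ruA`. Limits of measurable functions: for clipped potentials as
`Gr_HH_cont`, `Gr_E_cont`, `Gr_meas` in `Pool/Agent/H121/Z987/Op.lean` (for the last item `S_meas` and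
`S_op`, proved: `Pool.Agent.H800.Y987.meas`, `Pool.Agent.H168.Y987.op`; the kernel of `HW (Op (k ω)) n V` is
`k ω x y + dgb n V x y`; you may assume `S_opb`). -/
def S_mU : Prop :=
  (∀ (ι : Type) [Countable ι] (T : LL ι →L[ℂ] LL ι), Rs T → ∀ (lam : ℝ) (x y : ι),
    (∀ k : ℕ, Measurable (Function.uncurry fun (E : ℝ) (ω : ι → ℝ) =>
      GU T (fun p => lam * ω p) (zk E k) x y)) ∧
    ∀ z : ℂ, z.im ≠ 0 → Measurable fun ω : ι → ℝ => GU T (fun p => lam * ω p) z x y) ∧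
  ∀ (ι Ω : Type) [Countable ι] [MeasurableSpace Ω] (k : Ω → ι → ι → ℝ) (h : ℝ) (V : Ω → ι → ℝ),
    (∀ ω, Ker h (k ω)) → (∀ x y, Measurable fun ω => k ω x y) → (∀ x, Measurable fun ω => V ω x) →
    ∀ (z : ℂ) (x y : ι), z.im ≠ 0 → Measurable fun ω => GU (Op (k ω)) (V ω) z x y

/-- **GA-ACR (absolutely continuous spectrum from moments).** PORT of `S_ac2`
(`Pool/Agent/H987/Y/StA.lean`, proved in `Pool/Agent/H295/Y987/Ac2.lean`, see also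
`Pool/Agent/H230/Z987/Ac.lean`) from bounded random operators `T ω` to random resolvent families `R ω`
(`Rz (T ω) z` is replaced by `R ω z`, `Gr (T ω) z x x` by `R ω z (dv x) x`, `SpM (T ω)` by `SpR (R ω)`), and the
hypothesis on the moments is now with the lower Lebesgue integral (which is even more convenient). The
facts used from the library about `Rz` (`qk_po`, `qk_add`, `all_vec` ... in
`Pool.Agent.Y662.TR`, file `Pool/Graph/R_pool_sql_team_seeded_1acbe0a2/Y662/TR/Acs.lean`) have to be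
ported to `R` with `Rf`: `Im ⟪φ, R z φ⟫ = Im z ‖R z φ‖²` follows from `Rf.id` and `Rf.ad`. -/
def S_acR : Prop :=
  ∀ (ι Ω : Type) [Countable ι] [MeasurableSpace Ω] (P : Measure Ω) [IsProbabilityMeasure P]
    (R : Ω → ℂ → LL ι →L[ℂ] LL ι) (g : ℂ → ℂ) (α β c C e : ℝ), (∀ ω, Rf (R ω)) →
    (∀ (z : ℂ) (x y : ι), z.im ≠ 0 → Measurable fun ω => R ω z (dv y) x) →
    ContinuousOn g {z | 0 < z.im} → 0 < c →
    (∀ (ω : Ω) (z : ℂ) (x : ι), 0 < z.im → 0 < (R ω z (dv x) x).im) →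
    (∀ z : ℂ, α < z.re → z.re < β → 0 < z.im → z.im ≤ 1 → c ≤ (g z).im ∧ ‖g z‖ ≤ C) →
    (∀ z : ℂ, α < z.re → z.re < β → 0 < z.im → z.im ≤ 1 → ∀ x : ι,
      ∫⁻ ω, ENNReal.ofReal (hu (R ω z (dv x) x) (g z) ^ 2) ∂P ≤ ENNReal.ofReal e) →
    ∀ᵐ ω ∂P,
      (∀ (φ : LL ι) (m : Measure ℝ), SpR (R ω) φ m →
        ∀ A : Set ℝ, A ⊆ Set.Ioo α β → volume A = 0 → m A = 0) ∧
      (∀ (x : ι) (m : Measure ℝ), SpR (R ω) (dv x) m →
        ∀ A : Set ℝ, A ⊆ Set.Ioo α β → MeasurableSet A → m A = 0 → volume A = 0)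

/-- **GA-WIENR (the Wiener type theorem).** PORT of `S_wienA` (proved in `Pool/Agent/H253/ME/WienA.lean`)
from `T` to a resolvent family: only `pol`, `gr_sum`, `gr_meas`, `pt_bd` (`Pool/Agent/H717/Z987/Wien.lean`),
`split` and the final theorem have to be redone (the files `WA.lean`, `WB.lean` of helper253 are about
measures on the line only). `spm_exists` is now the field `Rf.sp`. -/
def S_wienR : Prop :=
  ∀ (w : ℝ → ℝ), Continuous w → (∀ E, 0 ≤ w E) → (∀ E, w E ≤ wt E) →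
    ∀ (ι : Type) [Countable ι] (R : ℂ → LL ι →L[ℂ] LL ι), Rf R → ∀ y : ι,
      (∀ δ : ℝ≥0∞, 0 < δ → ∃ F : Finset ι, liminf (fun k => TR w R y F k) atTop ≤ δ) →
      ∀ m : Measure ℝ, SpR R (dv y) m → ∃ A : Set ℝ, A.Countable ∧ m ({E | 0 < w E} \ A) = 0

/-- **GA-CLOSR (from the sites to all vectors).** PORT of `comp_null`
(`Pool/Agent/H295/Z987/Clos.lean`) to resolvent families; general measurable sets by inner regularity
(`MeasurableSet.measure_eq_iSup_isCompact`). -/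
def S_closR : Prop :=
  ∀ (ι : Type) [Countable ι] (R : ℂ → LL ι →L[ℂ] LL ι), Rf R → ∀ N : Set ℝ, MeasurableSet N →
    (∀ y : ι, ∃ m : Measure ℝ, SpR R (dv y) m ∧ m N = 0) →
    ∀ (φ : LL ι) (m : Measure ℝ), SpR R φ m → m N = 0

/-- **GA-ATOM (eigenvectors from atoms).** You may assume `S_ruA` and `S_ruB`.

Proof. `ε = ep k`, `u_k = -iε RU T V (t + iε) (dv y)`. By `Rf.id`, `Rf.ad`:
`⟪u_k, u_l⟫ = ε_k ε_l ⟪f, R(t - iε_k) R(t + iε_l) f⟫ = (ε_k ε_l/(-i(ε_k + ε_l))) (F(t - iε_k) - F(t + iε_l))`, and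
`-iε F(t + iε) → m{t}`, `iε F(t - iε) → m{t}` (`Fm_atom` in `Pool/Agent/H717/Z987/WienB.lean`,
`F(z̄) = conj F(z)`), so `⟪u_k, u_l⟫ → m{t}` as `k, l → ∞`. Hence `u_k` is a Cauchy sequence, and its limit
`u` has `‖u‖² = m{t} > 0`. The pointwise equation of `S_ruA` for `u_k` gives the one for `u`. -/
def S_atom : Prop :=
  ∀ (ι : Type) [Countable ι] (T : LL ι →L[ℂ] LL ι), Rs T → ∀ (V : ι → ℝ) (y : ι) (m : Measure ℝ),
    SpR (RU T V) (dv y) m → ∀ t : ℝ, m {t} ≠ 0 →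
    ∃ u : LL ι, u ≠ 0 ∧ ∀ x, T u x + ((V x : ℝ) : ℂ) * u x = (t : ℂ) * u x

/-- **GA-WEYA (trial functions).** You may assume `S_ruA`, `S_ruB`, `S_closR`.

Proof. Otherwise `m_y(J) = 0` for all sites, `J = (E - 2r, E + 2r)`, so by `S_closR` `m_φ(J) = 0` for all
`φ`, and with `z = E + iη`, `‖RU z φ‖² = Im ⟪φ, RU z φ⟫/η = ∫ 1/((t - E)² + η²) dm_φ ≤ ‖φ‖²/(2r)²`
(`m_φ(ℝ) = ‖φ‖²`: `Rf.sp`; a measure with the same Borel transform has the same mass, or use the measure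
of `Rf.sp`). By the uniqueness in `S_ruA`: `u = RU z (f + (E - z) u)`, so
`‖u‖ ≤ (‖f‖ + η ‖u‖)/(2r) ≤ (r + η) ‖u‖/(2r) < ‖u‖` for `η < r`. -/
def S_weyA : Prop :=
  ∀ (ι : Type) [Countable ι] (T : LL ι →L[ℂ] LL ι), Rs T → ∀ (V : ι → ℝ) (E r : ℝ) (u f : LL ι),
    0 < r → u ≠ 0 → ‖f‖ ≤ r * ‖u‖ →
    (∀ x, T u x + ((V x : ℝ) : ℂ) * u x - (E : ℂ) * u x = f x) →
    ∃ y : ι, ∀ m : Measure ℝ, SpR (RU T V) (dv y) m → m (Set.Ioo (E - 2 * r) (E + 2 * r)) ≠ 0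

/-- **GA-WEYB (trial functions exist).** Compare `S_topY` (`Pool/Agent/H121/MY/Iface.lean`, proved in
`Pool/Agent/H548/MY/TopY.lean`).

Proof. It suffices to consider rational `E`, `r`. `η > 0` small; `B, R` the approximation of `k` for
`δ = η`, `Λ` a box of side `L`, `u = 1_Λ` (or its translate). `Op k u (x) = ∑_{y ∈ Λ} k x y`. If `x ∈ Λ` has
distance `> R` from the complement of `Λ` then `|Op k u (x) - κ| ≤ ∑_{y ∉ Λ} |k x y| ≤ η` (there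
`k x y = (k - B) x y`); for the other `x ∈ Λ` (at most `2 d (R + 1) L^(d-1)`) it is at most `2 h`. For `x ∉ Λ`:
`|Op k u (x)|² ≤ h ∑_{y ∈ Λ} |k x y|`, and `∑_{x ∉ Λ} ∑_{y ∈ Λ} |k x y| ≤ η |Λ| + h * #{boundary}`. So
`‖Op k u - κ u‖² ≤ (η² + h η) |Λ| + (4 h² + h²) #{boundary} ≤ (r/2)² |Λ|`. If `|lam ω x - (E - κ)| ≤ r/2` on
`Λ` then `f = Op k u + lam ω u - E u` has norm at most `r ‖u‖`. As `μ` charges all nonempty open intervals,
almost surely this happens on one of infinitely many disjoint translates of `Λ` (`good_box` in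
`Pool/Agent/H410/ME/TopB.lean` or its proof). -/
def S_weyB : Prop :=
  ∀ (d : ℕ) (k : Lt d → Lt d → ℝ) (h κ : ℝ), 1 ≤ d → Ker h k → (∀ x, ∑' y, k x y = κ) →
    (∀ δ : ℝ, 0 < δ → ∃ (R : ℕ) (B : Lt d → Lt d → ℝ),
      (∀ x y, B x y ≠ 0 → ∀ i, |x i - y i| ≤ (R : ℤ)) ∧ Ker δ fun x y => k x y - B x y) →
    ∀ (μ : Measure ℝ) [IsProbabilityMeasure μ], (∀ a b : ℝ, a < b → 0 < μ (Set.Ioo a b)) →
    ∀ lam : ℝ, lam ≠ 0 →
    ∀ᵐ ω ∂(Measure.infinitePi fun _ : Lt d => μ), ∀ E r : ℝ, 0 < r → ∃ u f : LL (Lt d), u ≠ 0 ∧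
      ‖f‖ ≤ r * ‖u‖ ∧
      ∀ x, Op k u x + ((lam * ω x : ℝ) : ℂ) * u x - (E : ℂ) * u x = f x

/-- **GA-GRAF (Graf's bound, laws with tails).** Compare `S_graf` (`Pool/Agent/H121/Z987/Iface.lean`,
proved in `Pool/Agent/H410/Z987/Graf.lean`); `Gra` is in `Pool/Agent/H121/ME/Fm.lean`.

Proof. `X(v) = ‖g/(1 + lam v a)‖ = k/|v - β|`, `β = -1/(lam a)`, `k = ‖g‖/(lam ‖a‖)`, `Im β = Im a/(lam ‖a‖²)`, so
(i) `Im β ≥ ε/lam`, (ii) `ε k² ≤ Im β/lam`. If `X ≤ 1` then `ε X² ≤ X² ≤ X^s`. The rest is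
`I = ∫_{|v - β| < k} ε k²/|v - β|² dμ`. By (ii) and `∫ Im β/|v - β|² dv = π` (`P_integral`):
`I ≤ (π/lam) ρ`, `ρ` = the supremum of the density on `{|v - β| < k}`; by (i) `I ≤ π lam k² ρ`. So
`I ≤ C' min(1, k²) ρ ≤ C' k^s ρ`. The right side: `∫ X^s dμ = k^s ∫ |v - β|^{-s} dμ ≥ (k^s/2) (K0 + |β|)^{-s}`,
where `μ [-K0, K0] ≥ 1/2` (`K0 = K0(D)`). If `|β| ≤ 2 k + 2`: for `k ≤ 1` the right side is at least `c k^s`, for
`k > 1` at least `c`; and `I ≤ C' D min(1, k²) `. If `|β| > 2 k + 2`: on `{|v - β| < k}` `|v| ≥ |β|/2`, so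
`ρ ≤ D (1 + |β|/2)^{-4} ≤ C'' (K0 + |β|)^{-s}`, and `I ≤ C' k^s ρ`. -/
def S_graD : Prop :=
  ∀ s D lam : ℝ, 0 < s → s < 1 → 0 < D → 0 < lam → ∃ C : ℝ, 0 < C ∧
    ∀ (μ : Measure ℝ) [IsProbabilityMeasure μ], Dd D μ → Gra μ lam s C

/-- **GA-DECT (the tails).**

Proof. `μ [-K0, K0] ≥ 1/2` with `K0 = K0(D)`, so `W := ∫ |v - β|^{-s} dμ ≥ (K0 + |β|)^{-s}/2`. For `K ≥ 1`:
`∫_{|v| > K, |v| ≤ |β|/2} |v - β|^{-s} dμ ≤ (|β|/2)^{-s} μ(|v| > K)` (only if `|β| > 2K ≥ 2`), and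
`∫_{|v| > K, |v| > |β|/2} |v - β|^{-s} dμ ≤ D (1 + |β|/2)^{-2} (1 + K)^{-1} ∫ |v - Re β|^{-s} (1 + |v|)^{-1} ...`;
use `(1 + |v|)^{-4} ≤ (1 + K)^{-1} (1 + |β|/2)^{-1} (1 + |v|)^{-2}` and
`∫ |v - b|^{-s} (1 + |v|)^{-2} dv ≤ 2/(1 - s) + 2` for all real `b` (split at `|v - b| = 1`). All is at most
`C (1 + K)^{-1} (1 + |β|)^{-s}`. -/
def S_decT : Prop :=
  ∀ s D δ : ℝ, 0 < s → s < 1 → 0 < D → 0 < δ → ∃ K : ℝ, 0 < K ∧
    ∀ (μ : Measure ℝ) [IsProbabilityMeasure μ], Dd D μ → ∀ β : ℂ, β.im ≠ 0 →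
      ∫⁻ v in {v : ℝ | K < |v|}, ENNReal.ofReal (‖(v : ℂ) - β‖ ^ (-s)) ∂μ ≤
        ENNReal.ofReal δ * ∫⁻ v : ℝ, ENNReal.ofReal (‖(v : ℂ) - β‖ ^ (-s)) ∂μ

/-- **GA-DECS (decoupling at strong disorder).** Compare `S_dec` (`Pool/Agent/H121/Z987/Iface.lean`, proved in
`Pool/Agent/H122/Z987/DecCore.lean`). You may assume `S_decT`.

Proof. `W(A) = ∫_A |v - β|^{-s} dμ`, `W = W(ℝ) < ∞`. It suffices to find `r ∈ (0,1)`, depending on `s, D`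
only, with `W({|v - α| < r}) ≤ W/2`; then `c = r^s/2`. Let `K` be from `S_decT` for `δ = 1/4`, so it suffices
`W({|v - α| < r, |v| ≤ K}) ≤ W/4`. (i) `|β| ≤ 2K + 2`: `W ≥ (K0 + |β|)^{-s}/2 ≥ c1` and
`W({|v - α| < r}) ≤ ∫_{|v - Re β| < r} |v - Re β|^{-s} D dv + r^{-s} μ{|v - Re α| < r} ≤ 4 D r^{1-s}/(1-s)`.
(ii) `|β| > 2K + 2`: on `|v| ≤ K` `|v - β| ≥ |β|/2`, so `W({|v - α| < r, |v| ≤ K}) ≤ (|β|/2)^{-s} 2 D r`, and
`W ≥ (K0 + |β|)^{-s}/2 ≥ c2 |β|^{-s}`. -/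
def S_decS : Prop :=
  ∀ s D : ℝ, 0 < s → s < 1 → 0 < D → ∃ c : ℝ, 0 < c ∧
    ∀ (μ : Measure ℝ) [IsProbabilityMeasure μ], Dd D μ → ∀ α β : ℂ, β.im ≠ 0 →
        ENNReal.ofReal c * ∫⁻ v : ℝ, ENNReal.ofReal (‖(v : ℂ) - β‖ ^ (-s)) ∂μ ≤
          ∫⁻ v : ℝ, ENNReal.ofReal (‖(v : ℂ) - α‖ ^ s * ‖(v : ℂ) - β‖ ^ (-s)) ∂μ

/-- **GA-GAUS (facts about the standard normal law `γ`).** Density `(2π)^(-1/2) e^(-v²/2)`
(`gaussianPDFReal`; `gaussianReal_of_var_ne_zero`). `e^(-v²/2) (1 + |v|)^4 ≤ 8 (1 + v^4) e^(-v²/2) ≤ 72`.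
Moments: `∫ v² = 1`; `∫ v^12 < ∞` (Mathlib: `memLp_id_gaussianReal` or similar), the image under
`v ↦ lam v` has second moment `lam²` and twelfth moment `lam^12 M12`. -/
def S_gaus : Prop :=
  Dd 72 (ProbabilityTheory.gaussianReal 0 1) ∧
  (∀ a b : ℝ, a < b → 0 < ProbabilityTheory.gaussianReal 0 1 (Set.Ioo a b)) ∧
  ((ProbabilityTheory.gaussianReal 0 1).map (fun v => -v) = ProbabilityTheory.gaussianReal 0 1) ∧
  ∀ δ : ℝ, 0 < δ → ∃ l0 : ℝ, 0 < l0 ∧ ∀ lam : ℝ, |lam| ≤ l0 →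
    Ms δ ((ProbabilityTheory.gaussianReal 0 1).map fun v => lam * v)

/-- **GA-LOCU (localization in an energy window).** PORT of `Pool/Agent/H121/ME/Fm.lean` and
`Pool/Agent/H121/ME/Main.lean` (theorems `dec_grW`, `fm_ineqW`, `kerN`, `norm_ineq`, `fs`, `fs_sumW` with
`γ = 0`, `r = 0`; `sm_leW`, `Tw_meas`, `Sw`, `Sw_meas`, `Sw_int`, `Tw_eq`, `Tw_int`, `ae_tightW`, and the first
part of `locW`; not needed: `ae_dec`, `S_wienB`, `S_simple`, the second part of `locW`), with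
`Gr (HH T lam ω) z x y` replaced by `GU T (fun p => lam * ω p) z x y`; the laws need not be supported in
`[-1, 1]`. You may assume `S_ruA, S_ruB, S_site, S_mU, S_wienR, S_closR` (hypotheses); these replace
`rz_eq` etc., `coord_im`, `Gr_im_pos`, `site`, `eqn`, `Gr_meas`, `Gr_meas1`, `wienA`, `closW`. In `fm_le`
(see `Pool/Agent/H121/Z987/Loc.lean`) the bound is `‖GU ..‖ ≤ 1/Im z`. -/
def S_locU : Prop :=
  ∀ (w : ℝ → ℝ), Continuous w → (∀ E, 0 ≤ w E) → (∀ E, w E ≤ wt E) →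
    ∀ I : Set ℝ, (∀ E, 0 < w E → E ∈ I) →
    ∀ (ι : Type) [Countable ι] (T : LL ι →L[ℂ] LL ι), Rs T → ∀ lam s c S C : ℝ,
    0 < lam → 0 < s → s < 1 → 0 < c * lam ^ s → S < c * lam ^ s → 0 ≤ S →
    (∀ x, (Summable fun y => ‖T (dv y) x‖ ^ s) ∧ ∑' y, ‖T (dv y) x‖ ^ s ≤ S) →
    ∀ (μ : Measure ℝ) [IsProbabilityMeasure μ], Gra μ lam s C →
    (∀ z : ℂ, 0 < z.im → z.re ∈ I → Dec μ lam s c z) →
    ∀ᵐ ω ∂(Measure.infinitePi fun _ : ι => μ),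
      ∀ (φ : LL ι) (m : Measure ℝ), SpR (RU T fun x => lam * ω x) φ m →
        ∃ A : Set ℝ, A.Countable ∧ m ({E | 0 < w E} \ A) = 0

end Pool.Agent.H121.GA
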