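import Pool.Agent.H121.GA.Loc
import Pool.Agent.H121.MY.Main
import Pool.Agent.H100.GA.Opb
import Pool.Agent.H139.GA.LocU
import Pool.Agent.H170.GA.WeyA
import Pool.Agent.H249.GA.AcR
import Pool.Agent.H253.GA.WienR
import Pool.Agent.H307.GA.Graf
import Pool.Agent.H338.GA.HullBb
import Pool.Agent.H399.GA.Site
import Pool.Agent.H738.GA.Meas
import Pool.Agent.H800.GA.ClosR
import Pool.Agent.H195.GA.Dec

/-! Project GA: assembly. -/

set_option autoImplicit false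
set_option linter.unusedSectionVars false

open scoped BigOperators InnerProductSpace Topology ENNReal
open Filter MeasureTheory

namespace Pool.Agent.H121.GA

open Pool.Agent.Y662.TR (LL Cf Mw dv hu lmk ll_ext ll_summable dv_apply)
open Pool.Agent.H987.Z (Rs SqS IsSp)
open Pool.Agent.H987.Y
open Pool.Agent.H121.MY (Cls HamT kt kt_ker PPi ACo refl_prod)

/-- the standard normal law -/
noncomputable abbrev γ : Measure ℝ := ProbabilityTheory.gaussianReal 0 1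

/-- unique solvability of `(H - z) u = f` in `ℓ²` -/
def SAd {X : Type} (H : (X → ℂ) → X → ℂ) : Prop :=
  ∀ (f : X → ℂ) (z : ℂ), SqS f → z.im ≠ 0 → ∃! u : X → ℂ, SqS u ∧ ∀ x, H u x - z * u x = f x

theorem sad_of (hru : S_ruA) {X : Type} (A : (X → ℂ) → X → ℂ) (T : LL X →L[ℂ] LL X) (hT : Rs T)
    (V : X → ℝ)
    (hA : ∀ (u : LL X) (x : X), A (fun y => u y) x = T u x + ((V x : ℝ) : ℂ) * u x) : SAd A := by
  intro f z hf hz
  obtain ⟨-, -, h3, h4⟩ := hru X T hT V z hz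
  refine ⟨fun x => RU T V z (lmk f hf) x, ⟨ll_summable _, fun x => ?_⟩, ?_⟩
  · simp only
    rw [hA]
    exact h3 (lmk f hf) x
  · rintro u ⟨hu, hu2⟩
    have h5 : lmk u hu = RU T V z (lmk f hf) := by
      refine h4 _ _ fun x => ?_
      rw [← hA]
      exact hu2 x
    rw [← h5]
    rfl

/-- symmetric laws: from `|σ|` to `σ` -/
theorem abs_ae {X : Type} [Countable X] (μ : Measure ℝ) [IsProbabilityMeasure μ]
    (hμ : (μ.map fun v => -v) = μ) (σ : ℝ) (Q : (X → ℝ) → Prop)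
    (h : ∀ᵐ ω ∂(Measure.infinitePi fun _ : X => μ), Q fun x => |σ| * ω x) :
    ∀ᵐ ω ∂(Measure.infinitePi fun _ : X => μ), Q fun x => σ * ω x := by
  rcases le_total 0 σ with h1 | h1
  · rwa [abs_of_nonneg h1] at h
  · rw [abs_of_nonpos h1] at h
    have hm : ∀ᵐ ω ∂(Measure.infinitePi fun _ : X => μ.map fun v => -v),
        Q fun x => -σ * ω x := by
      have e : (Measure.infinitePi fun _ : X => μ.map fun v => -v) =
          Measure.infinitePi fun _ : X => μ := by simp only [hμ]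
      rw [e]
      exact h
    have h2 := refl_prod μ _ hm
    filter_upwards [h2] with ω hω
    have e : (fun x => σ * ω x) = fun x => -σ * -ω x := by
      funext x
      ring
    rw [e]
    exact hω

/-- the Hamiltonian in terms of the potential -/
theorem hamt_one {d : ℕ} (A : Lt d → Lt d → ℝ) (σ : ℝ) (ω : Lt d → ℝ) :
    HamT A σ ω = HamT A 1 fun x => σ * ω x := by
  funext u x
  unfold HamT
  rw [one_mul]

theorem lr_abs {d : ℕ} (A : Lt d → Lt d → ℝ) (μ : Measure ℝ) [IsProbabilityMeasure μ]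
    (hμ : (μ.map fun v => -v) = μ) (σ e e' : ℝ) (he : e < e') (h : LR A |σ| μ e) :
    ∀ᵐ ω ∂(Measure.infinitePi fun _ : Lt d => μ), PPi (HamT A σ ω) {E | e' ≤ |E|} ∧
      ∀ x y : ℝ, x < y → Set.Ioo x y ⊆ {E | e' ≤ |E|} → EXi (HamT A σ ω) (Set.Ioo x y) := by
  have hsub : {E : ℝ | e' ≤ |E|} ⊆ {E | e < |E|} := fun E hE => lt_of_lt_of_le he hE
  have h1 := abs_ae μ hμ σ (fun V => PPi (HamT A 1 V) {E | e < |E|} ∧
    ∀ x y : ℝ, x < y → Set.Ioo x y ⊆ {E | e < |E|} → EXi (HamT A 1 V) (Set.Ioo x y)) (by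
      unfold LR at h
      filter_upwards [h] with ω hω
      rw [hamt_one] at hω
      exact hω)
  filter_upwards [h1] with ω hω
  rw [hamt_one]
  obtain ⟨h2, h3⟩ := hω
  refine ⟨fun f m hf hm => ?_, fun x y hxy hs => h3 x y hxy (hs.trans hsub)⟩
  obtain ⟨N, hN, hmN⟩ := h2 f m hf hm
  exact ⟨N, hN, measure_mono_null (Set.diff_subset_diff_left hsub) hmN⟩

theorem aco_mono {X : Type} {H : (X → ℂ) → X → ℂ} {α β α' β' : ℝ} {δ : X → X → ℂ}
    (h : ACo H α β δ) (h1 : α ≤ α') (h2 : β' ≤ β) : ACo H α' β' δ :=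
  ⟨h.1, fun f m hf hm E hE => h.2.1 f m hf hm E (hE.trans (Set.Icc_subset_Icc h1 h2)),
    fun x m hm E hE => h.2.2 x m hm E (hE.trans (Set.Icc_subset_Icc h1 h2))⟩

set_option maxHeartbeats 1000000 in
/-- **assembly** -/
theorem main0 (hclose : S_closeb) (hnet : S_netU) (hru : S_ruA) (hrf : S_ruB) (hatom : S_atom)
    (hweyB : S_weyB) (hgaus : S_gaus)
    (d : ℕ) (hd : 1 ≤ d) (hd2 : d ≠ 2) (ε : ℝ) (hε : 0 < ε) :
    ∃ (κ σ0 σ1 : ℝ) (A : (Fin d → ℤ) → (Fin d → ℤ) → ℝ), 0 < κ ∧ κ ≤ ε ∧ 0 < σ0 ∧ 0 < σ1 ∧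
      (∀ x y, 0 ≤ A x y) ∧ (∀ x y, A x y = A y x) ∧ (∀ x, HasSum (fun y => A x y) κ) ∧
      (∀ p : ℝ, 0 < p → ∃ S : ℝ, ∀ x, (Summable fun y => A x y ^ p) ∧ ∑' y, A x y ^ p ≤ S) ∧
      (∀ δ : ℝ, 0 < δ → ∃ (N R : ℕ) (B : (Fin d → ℤ) → (Fin d → ℤ) → ℝ), 0 < N ∧
        (∀ x y v, B (x + (N : ℤ) • v) (y + (N : ℤ) • v) = B x y) ∧
        (∀ x y, B x y ≠ 0 → ∀ i, |x i - y i| ≤ R) ∧
        ∀ x, (Summable fun y => |A x y - B x y|) ∧ ∑' y, |A x y - B x y| ≤ δ) ∧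
      (∀ (σ : ℝ) (ω : Lt d → ℝ), SAd (HamT A σ ω) ∧
        ∀ f : Lt d → ℂ, SqS f → ∃ m : Measure ℝ, IsSp (HamT A σ ω) f m) ∧
      (∀ σ : ℝ, σ1 ≤ |σ| → ∀ᵐ ω ∂(Measure.infinitePi fun _ : Lt d => γ),
        PPi (HamT A σ ω) Set.univ ∧ ∀ x y : ℝ, x < y → EXi (HamT A σ ω) (Set.Ioo x y)) ∧
      (∀ σ : ℝ, σ ≠ 0 → |σ| ≤ σ0 → ∀ᵐ ω ∂(Measure.infinitePi fun _ : Lt d => γ),
        PPi (HamT A σ ω) {E | 2 * d + ε ≤ |E|} ∧
        ∀ x y : ℝ, x < y → Set.Ioo x y ⊆ {E | 2 * d + ε ≤ |E|} → EXi (HamT A σ ω) (Set.Ioo x y)) ∧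
      (∀ σ : ℝ, σ ≠ 0 → ∃ e : ℝ, 0 < e ∧ ∀ᵐ ω ∂(Measure.infinitePi fun _ : Lt d => γ),
        PPi (HamT A σ ω) {E | e ≤ |E|} ∧
        ∀ x y : ℝ, x < y → Set.Ioo x y ⊆ {E | e ≤ |E|} → EXi (HamT A σ ω) (Set.Ioo x y)) ∧
      (∀ᵐ σ ∂(volume.restrict (Set.Icc (-σ0) σ0)),
        ∀ᵐ ω ∂(Measure.infinitePi fun _ : Lt d => γ),
          ACo (HamT A σ ω) (-(2 * d - ε)) (2 * d - ε) fun x y => dv x y) := by
  have hc := Pool.Agent.H194.Z987.conv
  have hg := Pool.Agent.H304.Z987.green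
  have h1 := Pool.Agent.H284.Z987.hutri
  have hop := Pool.Agent.H168.Y987.op
  have hopb := Pool.Agent.H100.GA.opb
  have hmeas := Pool.Agent.H800.Y987.meas hop
  have htr := Pool.Agent.H410.Y987.troot hop
  have hfree := Pool.Agent.H788.Y987.free hop
  have hA := Pool.Agent.H332.Y987.hullA hfree
  have hsep := Pool.Agent.H796.Y987.sep
  have hdig := Pool.Agent.H588.Y987.dig
  have hsite : S_site := Pool.Agent.H399.GA.site hru
  have hmU : S_mU := Pool.Agent.H738.GA.mU hru hopb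
  have hclos : S_closR := Pool.Agent.H800.GA.closR
  have hloc : S_locU := Pool.Agent.H139.GA.locU hrf hsite hmU Pool.Agent.H253.GA.wienR hclos
  have hweyA : S_weyA := Pool.Agent.H170.GA.weyA hru hrf hclos
  have hd1 : (1 : ℝ) ≤ d := by exact_mod_cast hd
  obtain ⟨ε1, hε1⟩ : ∃ ε1 : ℝ, ε1 = min ε 1 := ⟨_, rfl⟩
  have hε10 : 0 < ε1 := by rw [hε1]; exact lt_min hε one_pos
  have hε1e : ε1 ≤ ε := by rw [hε1]; exact min_le_left _ _
  have hε11 : ε1 ≤ 1 := by rw [hε1]; exact min_le_right _ _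
  obtain ⟨l0, a, m, A, hl0, ha, hm, hp, hs, hκ, hcls, hac⟩ :=
    weakG hop hopb hmeas Pool.Agent.H249.GA.acR hg hru hrf hsite hmU Pool.Agent.H199.MY.gauge
    (Pool.Agent.H795.Y987.bootk h1 Pool.Agent.H271.Z987.lln Pool.Agent.H628.Z987.star hg hop hmeas
      htr Pool.Agent.H588.Y987.tsplit)
    hclose hnet hfree hsep hdig hA (Pool.Agent.H338.GA.hullBb hopb)
    Pool.Agent.H168.Y987.kact (Pool.Agent.H734.Z987.free1 hc hg)
    (Pool.Agent.H548.Z987.free2 hc hg) (Pool.Agent.H383.Z987.free3 hc hg)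
    d hd ε1 (4 * d - ε1) hε10 (by linarith) (by linarith) (fun h => absurd h hd2) (ε1 / 4)
    (by linarith) γ (fun δ hδ => hgaus.2.2.2 δ hδ)
  have hκ0 : 0 < ∑' k, a k * m k := by
    refine lt_of_lt_of_le (mul_pos (ha 0) (lt_of_lt_of_le one_pos (hm 0))) ?_
    exact hs.le_tsum 0 fun k _ => mul_nonneg (ha k).le (zero_le_one.trans (hm k))
  obtain ⟨lam0, lam1, hlam0, hlam1, hL⟩ := locG hop hru hrf hloc hatom hweyA hweyB
    Pool.Agent.H307.GA.graD Pool.Agent.H195.GA.decT Pool.Agent.H195.GA.decS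
    Pool.Agent.H333.MY.sigY d hd a m (fun k => (ha k).le) (fun k => zero_le_one.trans (hm k)) hp 72
    (by norm_num) (2 * d + ε1 / 2) (by linarith)
  obtain ⟨hL1, hL2, hL3⟩ := hL A hcls γ hgaus.2.1 hgaus.1
  have hK : Rs (Op (kt A)) := (hop _ _ _ (kt_ker hcls)).2.2.1
  have hAct : ∀ (σ : ℝ) (ω : Lt d → ℝ) (u : LL (Lt d)) (x : Lt d), HamT A σ ω (fun y => u y) x =
      Op (kt A) u x + ((σ * ω x : ℝ) : ℂ) * u x := fun σ ω u x => hamt_opt hop hcls σ ω u x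
  refine ⟨∑' k, a k * m k, min l0 lam0, lam1, A, hκ0, by linarith, lt_min hl0 hlam0, hlam1,
    hcls.nn, hcls.sy, hcls.rs, hcls.mom hp, fun δ hδ => ?_, fun σ ω => ⟨?_, fun f hf => ?_⟩,
    fun σ hσ => ?_, fun σ hσ hσ0 => ?_, fun σ hσ => ?_, ?_⟩
  · obtain ⟨N, R, h, B, b1, b2, b3⟩ := hcls.ap δ hδ
    exact ⟨N, R, B, b1, b2.per, b2.rng, fun x => ⟨b3.sm x, b3.le x⟩⟩
  · exact sad_of hru _ _ hK (fun y => σ * ω y) (hAct σ ω)
  · obtain ⟨m', hm', -⟩ := (hrf _ _ hK fun y => σ * ω y).sp (lmk f hf)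
    exact ⟨m', of_spr hru _ _ hK (fun y => σ * ω y) (hAct σ ω) f hf m' hm'⟩
  · have h2 := lr_abs A γ hgaus.2.2.1 σ (-1) (-1 / 2) (by norm_num) (hL3 |σ| hσ)
    have h3 : {E : ℝ | -1 / 2 ≤ |E|} = Set.univ := by
      ext E
      simp only [Set.mem_setOf_eq, Set.mem_univ, iff_true]
      have := abs_nonneg E
      linarith
    rw [h3] at h2
    filter_upwards [h2] with ω hω
    exact ⟨hω.1, fun x y hxy => hω.2 x y hxy (Set.subset_univ _)⟩
  · exact lr_abs A γ hgaus.2.2.1 σ _ _ (by linarith) (hL1 |σ| (abs_pos.2 hσ)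
      (hσ0.trans (min_le_right _ _)))
  · obtain ⟨e1, he1, h2⟩ := hL2 |σ| (abs_pos.2 hσ)
    exact ⟨e1 + 1, by linarith, lr_abs A γ hgaus.2.2.1 σ _ _ (by linarith) h2⟩
  · -- positive coupling
    obtain ⟨Q, hQ⟩ : ∃ Q : ℝ → Prop, Q = fun lam => ∀ᵐ ω ∂(Measure.infinitePi fun _ : Lt d => γ),
        ACo (HamT A lam ω) (-(2 * d - ε)) (2 * d - ε) fun x y => dv x y := ⟨_, rfl⟩
    have hpos : ∀ᵐ lam ∂(volume.restrict (Set.Ioc 0 l0)), Q lam := by
      filter_upwards [hac] with lam h2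
      rw [hQ]
      have h3 : ∀ᵐ ω ∂(Measure.infinitePi fun _ : Lt d => (γ.map fun v => -v)),
          ACo (HamY (fun x y => -A x y) lam ω) ε1 (4 * d - ε1) fun x y => dv x y := by
        have e : (Measure.infinitePi fun _ : Lt d => (γ.map fun v => -v)) =
            Measure.infinitePi fun _ : Lt d => γ := by simp only [hgaus.2.2.1]
        rw [e]
        exact h2
      have h4 := refl_prod γ _ h3
      filter_upwards [h4] with ω hω
      have h5 := aco_neg (HamT A lam ω) (HamY (fun x y => -A x y) lam fun p => -ω p) (2 * (d : ℝ))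
        (fun u _ x => hamt_hamy A lam ω u x) (fun u x => hamy_neg _ _ _ u x)
        (fun u x => hamt_neg _ _ _ u x) ε1 (4 * d - ε1) _ hω
      exact aco_mono h5 (by linarith) (by linarith)
    have habs : ∀ σ : ℝ, Q |σ| → Q σ := by
      intro σ h2
      rw [hQ] at h2 ⊢
      have h3 := abs_ae γ hgaus.2.2.1 σ (fun V => ACo (HamT A 1 V) (-(2 * d - ε)) (2 * d - ε)
        fun x y => dv x y) (by
          filter_upwards [h2] with ω hω
          rw [hamt_one] at hω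
          exact hω)
      filter_upwards [h3] with ω hω
      rw [hamt_one]
      exact hω
    have h2 : ∀ᵐ σ ∂(volume.restrict (Set.Icc (-(min l0 lam0)) (min l0 lam0))), Q σ := by
      rw [ae_restrict_iff' measurableSet_Ioc] at hpos
      rw [ae_restrict_iff' measurableSet_Icc]
      have hneg : ∀ᵐ σ : ℝ, -σ ∈ Set.Ioc 0 l0 → Q (-σ) :=
        (Measure.measurePreserving_neg (volume : Measure ℝ)).quasiMeasurePreserving.ae hpos
      have h0 : ∀ᵐ σ : ℝ, σ ≠ 0 := by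
        rw [ae_iff]
        simp
      filter_upwards [hpos, hneg, h0] with σ h3 h4 h5 h6
      have h7 : σ ≤ l0 := h6.2.trans (min_le_left _ _)
      have h8 : -l0 ≤ σ := by
        have := min_le_left l0 lam0
        linarith [h6.1]
      refine habs σ ?_
      rcases lt_or_gt_of_ne h5 with h9 | h9
      · rw [abs_of_neg h9]
        exact h4 ⟨by linarith, by linarith⟩
      · rw [abs_of_pos h9]
        exact h3 ⟨h9, h7⟩
    rw [hQ] at h2
    exact h2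

end Pool.Agent.H121.GA
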