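import Pool.Agent.H121.MY.Iface

/-! Project GA (Gaussian disorder on the lattice), part A: the networks with potentials clipped at an
arbitrary level, for single site laws with small moments.

Everything is as in project Y of helper987 (`Pool/Agent/H987/Y`), with the potential clipped to `[-b, b]`
instead of `[-1, 1]`, and with laws with small moments instead of laws with small support. The estimates
must be uniform in `b ≥ 1`. -/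

set_option autoImplicit false

open scoped BigOperators InnerProductSpace Topology ENNReal
open Filter MeasureTheory

namespace Pool.Agent.H121.GA

open Pool.Agent.Y662.TR (LL Cf Mw dv hu clp)
open Pool.Agent.TH369.AN (Rz)
open Pool.Agent.H987.Z (Rs Gr Fr gZ HV)
open Pool.Agent.H987.Y

open Classical in
/-- the kernel of the potential `V`, clipped to `[-b, b]` -/
noncomputable def dgb {ι : Type} (b : ℝ) (V : ι → ℝ) (x y : ι) : ℝ := if x = y then clp b (V x) else 0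

/-- the operator `T + V`, `V` clipped to `[-b, b]` -/
noncomputable def HW {ι : Type} (T : LL ι →L[ℂ] LL ι) (b : ℝ) (V : ι → ℝ) : LL ι →L[ℂ] LL ι :=
  T + Mw b V

section net

variable {d : ℕ}

/-- the kernel of a sheet: the network, shifted by the phase, plus the potential -/
noncomputable def kNb {N : ℕ} (b : ℝ) (t : Lt d → Lt d → ℝ) (ω : Om d N) (x y : Lt d) : ℝ :=
  t (x + ph ω.1) (y + ph ω.1) + dgb b ω.2 x y

/-- the bounds for a network (averaged over the phases) -/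
def PNb (b : ℝ) (N : ℕ) (t : Lt d → Lt d → ℝ) (ν : Measure ℝ) (g : ℂ → ℂ) (α β θ T e : ℝ) : Prop :=
  PK (kNb (N := N) b t) (PO d N ν) (0 : Lt d) g α β θ T e

end net

/-- the moments of a law are at most `δ` -/
def Ms (δ : ℝ) (ν : Measure ℝ) : Prop :=
  ∫⁻ v, ENNReal.ofReal (v ^ 2) ∂ν ≤ ENNReal.ofReal δ ∧ ∫⁻ v, ENNReal.ofReal (v ^ 12) ∂ν ≤ 1

/-- **GA-OP.** PORT of the item `∀ V : ι → ℝ` of `S_op` (proved in `Pool/Agent/H168/Y987/Op.lean`, theorems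
`dg_hs`, `Ker_dg`, `Op_dg`), `clp 1` replaced by `clp b`. The last item: the tree with potential is the tree
without potential plus the potential `(l, x) ↦ (W l).2 x`. -/
def S_opb : Prop :=
  (∀ (ι : Type) (k : ι → ι → ℝ) (h b : ℝ), Ker h k → 0 ≤ b → ∀ V : ι → ℝ,
    Ker (h + b) (fun x y => k x y + dgb b V x y) ∧
    Op (fun x y => k x y + dgb b V x y) = HW (Op k) b V) ∧
  (∀ (ι : Type) (T : LL ι →L[ℂ] LL ι), Rs T → ∀ (b : ℝ) (V : ι → ℝ), Rs (HW T b V)) ∧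
  ∀ (d N n : ℕ) (t : Lt d → Lt d → ℝ) (f : Bool) (a b : ℝ) (W : List (Ix (Lt d) n) → Om d N)
    (v v' : Vt (Lt d) n),
    kB (kNb b t) f (0 : Lt d) a W v v' =
      kB (fun (ω : Om d N) x y => t (x + ph ω.1) (y + ph ω.1)) f (0 : Lt d) a W v v' +
        dgb b (fun v : Vt (Lt d) n => (W v.1).2 v.2) v v'

/-- **GA-COV.** PORT of `S_cov` (proved in `Pool/Agent/H757/Y987/Cov.lean`), with `kNb b`, `dgb b`
instead of `kN`, `dg` (`clp 1` replaced by `clp b` everywhere). -/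
def S_covb : Prop :=
  ∀ (d N R n t0 : ℕ) (t : Lt d → Lt d → ℝ) (h a b : ℝ) (σ : Fin (n + 1) → Lt d → Lt d) (X : Lt d)
    (W : List (Ix (Lt d) n) → Om d N) (V' : Lt d → ℝ), 0 ≤ b → Net N R h t →
    (∀ j x, σ j (σ j x) = x) →
    Set.InjOn (pos σ X) {v | gV R t0 v} →
    (∀ l, gL R t0 l → ∃ w : Lt d, bs σ X l = ph (W l).1 + (N : ℤ) • w) →
    (∀ v, gV R t0 v → (W v.1).2 v.2 = V' (pos σ X v)) →
    ∀ m ≤ t0, (Op (kB (kNb b t) true (0 : Lt d) a W) ^ m) (dv (([] : List (Ix (Lt d) n)), 0)) ([], 0) =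
      (Op (fun x y => t x y + a * kσ σ x y + dgb b V' x y) ^ m) (dv X) X

/-- **GA-NET.** PORT of `S_net` (proved in `Pool/Agent/H297/Y987/Net.lean`) for potentials clipped at a
level `b ≤ b0`; `N', R', σ` depend on `b0` but not on `b`. (In the proof take
`h = h0 + |a| (n + 2) + b0` instead of `h0 + |a| (n + 2) + 1`.) You may assume `S_opb` and `S_covb` as
hypotheses: theorem `netb (hop : S_op) (hopb : S_opb) .. (hcov : S_covb) ..  : S_netb`. -/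
def S_netb : Prop :=
  ∀ (d : ℕ) (g : ℂ → ℂ) (α β c C : ℝ), Fr g α β c C → ∀ θ ε : ℝ, 0 < θ → θ ≤ 1 → 0 < ε → ε ≤ 1 →
    ∀ (N R n : ℕ) (t : Lt (d + 1) → Lt (d + 1) → ℝ) (a h0 b0 : ℝ), 1 ≤ N → Net N R h0 t → 0 ≤ b0 →
    ∃ (N' R' : ℕ) (σ : Fin (n + 1) → Lt (d + 1) → Lt (d + 1)), 0 < N' ∧ N ∣ N' ∧
      (∀ j x, σ j (σ j x) = x) ∧ Net N' R' (|a| * (n + 1)) (fun x y => a * kσ σ x y) ∧
      ∀ b : ℝ, 0 ≤ b → b ≤ b0 → ∀ (ν : Measure ℝ) [IsProbabilityMeasure ν] (e : ℝ), 0 ≤ e → e ≤ 1 →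
        (∀ z : ℂ, α ≤ z.re → z.re ≤ β → θ ≤ z.im → z.im ≤ 1 →
          ∫ W, hu (GB (kNb (N := N) b t) true 0 a W z) (g z) ^ 2
            ∂(Measure.infinitePi fun _ : List (Ix (Lt (d + 1)) n) => PO (d + 1) N ν) ≤ e) →
        PNb b N' (fun x y => t x y + a * kσ σ x y) ν g α β θ 1 ((1 + ε) * e + ε)

/-- **GA-HULL.** PORT of `S_hullB` (proved in `Pool/Agent/H825/Y987/HullB.lean`) for potentials clipped
at the level `b`. You may assume `S_opb` as a hypothesis. -/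
def S_hullBb : Prop :=
  ∀ (d : ℕ) (Q : ℕ → ℕ) (A : ℕ → Lt d → Lt d → ℝ) (B : ℕ → ℝ) (R : ℕ → ℕ), (∀ k, 0 < Q k) →
    (∀ k, Net (pQ Q (k + 1)) (R k) (B k) (A k)) → Summable B →
    ∀ (ν : Measure ℝ) [IsProbabilityMeasure ν] (b : ℝ), 0 ≤ b →
    ∀ (z g : ℂ) (e : ℝ), 0 < z.im → 0 < g.im →
      (∀ᶠ n in atTop, ∫ ω, hu (Gr (Op (kNb (N := pQ Q n) b (tn A n) ω)) z 0 0) g ^ 2
        ∂(PO d (pQ Q n) ν) ≤ e) →
      ∀ x : Lt d, ∫ q : Hu d Q × (Lt d → ℝ),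
        hu (Gr (Op fun y y' => kf d y y' + tA A q.1 y y' + dgb b q.2 y y') z x x) g ^ 2
          ∂((PH d Q).prod (Measure.infinitePi fun _ : Lt d => ν)) ≤ e

/-- **GA-CLIP (changing the clip level).** Uniformly in the operator `T` with norm at most `h0` and in
`b, b' ≥ b0`.

Proof. Write `G_b = Gr (HW T b V) z x x`, `R_b = Rz (HW T b V) z`, `η = Im z ≥ θ`, `|z| ≤ ρ + 2 =: r`, `b ≤ b'`.
(1) `‖V_b R_b f‖ ≤ L ‖f‖`, `L = 1 + (r + h0)/θ` (`V_b` = multiplication by the clipped potential; from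
`V_b u = f + z u - T u`, `u = R_b f`, `‖u‖ ≤ ‖f‖/θ`), so `‖1_{|V| > b} R_b f‖ ≤ (L/b) ‖f‖` (there `|V_b| = b`), and
the same for the conjugate `z̄`, and for `R_{b'}`: `‖1_{|V| > b} R_{b'} f‖ ≤ (L/b) ‖f‖`,
`‖1_{|V| > b} V_{b'} R_{b'} f‖ ≤ L ‖f‖`.
(2) `R_b - R_{b'} = R_b (V_{b'} - V_b) R_{b'}` and `V_{b'} - V_b` lives on `{|V| > b}`, `|V_{b'} - V_b| ≤ |V_{b'}|`, so
`|G_b - G_{b'}| ≤ ‖1_{|V|>b} R_b(z̄) dv x‖ ‖(V_{b'} - V_b) R_{b'} dv x‖ ≤ L²/b`.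
(3) `Im G_b ≥ θ/(|V_x| + h0 + r + 1)²`: `Im G_b = η ‖R_b dv x‖²` and
`1 = ‖dv x‖²= ⟪dv x, (T + V_b - z) R_b dv x⟫`, `|⟪dv x, V_b R_b dv x⟫| ≤ |V_x| ‖R_b dv x‖`.
(4) `hu F G = |F - G|²/(Im F Im G)` (see `hu` and `S_hutri`: `hu(F, g)² ≤ (1 + ε/2) hu(G, g)² + K hu(F, G)² (1 +
hu(G, g)²)`, proved in `Pool/Agent/H284/Z987/Hutri.lean`), `hu(G_{b'}, G_b)² ≤ (L²/b)⁴ (|V_x| + C')⁸/θ⁴`,
`hu(G_b, g)² ≤ C'' (|V_x| + C')⁴`, so the error is at most `C''' (1 + |V_x|)^12/b⁴`, whose expectation is at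
most `C'''' /b⁴ ≤ ε` if `b ≥ b0`. (For `b > b'` the roles are exchanged; only `|G_b - G_{b'}| ≤ L²/min(b,b')` and
the bounds for each of them are used.) -/
def S_clip : Prop :=
  ∀ θ ε h0 ρ c C : ℝ, 0 < θ → 0 < ε → 0 < h0 → 0 < ρ → 0 < c → 0 < C → ∃ b0 : ℝ, 1 ≤ b0 ∧
    ∀ (ι Ω : Type) [Countable ι] [MeasurableSpace Ω] (P : Measure Ω) [IsProbabilityMeasure P]
      (T : Ω → (LL ι →L[ℂ] LL ι)) (V : Ω → ι → ℝ) (x : ι),
      (∀ ω, Rs (T ω)) → (∀ ω, ‖T ω‖ ≤ h0) →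
      (∀ (b : ℝ) (z : ℂ), 0 ≤ b → z.im ≠ 0 → Measurable fun ω => Gr (HW (T ω) b (V ω)) z x x) →
      (Measurable fun ω => V ω x) → ∫⁻ ω, ENNReal.ofReal (V ω x ^ 12) ∂P ≤ 1 →
      ∀ b b' : ℝ, b0 ≤ b → b0 ≤ b' → ∀ z g : ℂ, |z.re| ≤ ρ → θ ≤ z.im → z.im ≤ 2 → c ≤ g.im →
        ‖g‖ ≤ C →
        ∫ ω, hu (Gr (HW (T ω) b' (V ω)) z x x) g ^ 2 ∂P ≤
          (1 + ε) * ∫ ω, hu (Gr (HW (T ω) b (V ω)) z x x) g ^ 2 ∂P + ε

/-- **GA-NEAR (small perturbations).** `T0` fixed, `‖T - T0‖ ≤ δ` almost surely, potentials with small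
second moments (identically distributed is not needed), clipped at any level.

Proof. `R = Rz (HW T b V) z`, `R0 = Rz T0 z`, `G, G0` the Green functions at `(x, x)`.
(1) `R - R0 = R (T0 - T - V_b) R0`, `|G - G0| ≤ ‖R‖ (δ ‖R0 dv x‖ + ‖V_b R0 dv x‖) ≤
(1/θ) (δ/θ + (∑_y V_y² |R0 dv x (y)|²)^(1/2))`, so `∫ |G - G0|² ≤ (2/θ²)(δ²/θ² + δ/θ²)`
(`∑_y ∫ V_y² ... `, `∑_y |R0 dv x (y)|² = ‖R0 dv x‖² ≤ 1/θ²`).
(2) `Im G ≥ θ/(|V_x| + h0 + ρ + 3 + δ)²` as in the third step of `S_clip`.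
(3) `hu(G, G0)² = |G - G0|⁴/(Im G Im G0)² ≤ |G - G0| (2/θ)³ (|V_x| + C')⁴/(θ² c²)`; Cauchy-Schwarz:
`∫ hu² ≤ C'' (∫ |G - G0|²)^(1/2) (∫ (|V_x| + C')⁸)^(1/2) ≤ C''' δ^(1/2)`. -/
def S_near : Prop :=
  ∀ θ η h0 ρ c : ℝ, 0 < θ → 0 < η → 0 < h0 → 0 < ρ → 0 < c → ∃ δ : ℝ, 0 < δ ∧ δ ≤ 1 ∧
    ∀ (ι Ω : Type) [Countable ι] [MeasurableSpace Ω] (P : Measure Ω) [IsProbabilityMeasure P]
      (T0 : LL ι →L[ℂ] LL ι) (T : Ω → (LL ι →L[ℂ] LL ι)) (V : Ω → ι → ℝ) (x : ι) (b : ℝ) (z : ℂ),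
      Rs T0 → ‖T0‖ ≤ h0 → (∀ ω, Rs (T ω)) → (∀ ω, ‖T ω - T0‖ ≤ δ) →
      (Measurable fun ω => Gr (HW (T ω) b (V ω)) z x x) →
      (∀ y, Measurable fun ω => V ω y) → (∀ y, ∫⁻ ω, ENNReal.ofReal (V ω y ^ 2) ∂P ≤ ENNReal.ofReal δ) →
      ∫⁻ ω, ENNReal.ofReal (V ω x ^ 12) ∂P ≤ 1 →
      0 ≤ b → |z.re| ≤ ρ → θ ≤ z.im → z.im ≤ 2 → c ≤ (Gr T0 z x x).im →
      ∫ ω, hu (Gr (HW (T ω) b (V ω)) z x x) (Gr T0 z x x) ^ 2 ∂P ≤ η

/-- **GA-CLOSE (comparison with the free operator).** Compare `S_closek` and its proof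
`Pool/Agent/H909/Y987/{Free,Closek}.lean`. From `S_near`, `S_opb`, `S_op`, `S_troot`, `S_meas`, `S_free`, `S_sep`
(assume `S_near` and `S_opb` as hypotheses; the others are proved:
`Pool.Agent.H168.Y987.op`, `Pool.Agent.H410.Y987.troot`, `Pool.Agent.H800.Y987.meas`,
`Pool.Agent.H788.Y987.free`, `Pool.Agent.H796.Y987.sep`).

Proof. Sheet: `T0 = Op (kf d)`, `T ω = Op (t (· + ph ω.1) (· + ph ω.1))`, `V ω = ω.2`; tree:
`T0 = Op (kB (fun _ => kf d) f 0 0 W)` (does not depend on `W`; its Green function at the root is `gZ d z`, see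
`Closek.lean`), `T W = Op (kB (fun ω x y => t (x + ph ω.1) (y + ph ω.1)) f 0 a W)`,
`‖T W - T0‖ ≤ δ' + |a| (n + 2)`, `V W v = (W v.1).2 v.2` (law `ν` for every `v`). -/
def S_closeb : Prop :=
  ∀ (d : ℕ) (α β c C : ℝ), Fr (gZ d) α β c C → ∀ θ η : ℝ, 0 < θ → 0 < η → ∃ δ : ℝ, 0 < δ ∧ δ ≤ 1 ∧
    ∀ (N R : ℕ) (t : Lt d → Lt d → ℝ) (h δ' : ℝ), 0 < N → Net N R h t →
      Ker δ' (fun x y => t x y - kf d x y) →
      ∀ (ν : Measure ℝ) [IsProbabilityMeasure ν], Ms δ ν → ∀ b : ℝ, 0 ≤ b →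
      ∀ z : ℂ, α ≤ z.re → z.re ≤ β → θ ≤ z.im → z.im ≤ 2 →
        (δ' ≤ δ → ∫ ω, hu (Gr (Op (kNb (N := N) b t ω)) z 0 0) (gZ d z) ^ 2 ∂(PO d N ν) ≤ η) ∧
        ∀ (n : ℕ) (a : ℝ), δ' + |a| * (n + 2) ≤ δ → ∀ f : Bool,
          ∫ W, hu (GB (kNb (N := N) b t) f 0 a W z) (gZ d z) ^ 2
            ∂(Measure.infinitePi fun _ : List (Ix (Lt d) n) => PO d N ν) ≤ η

/-- **GA-NETU (all clip levels).** From `S_netb`, `S_clip`, `S_opb` (hypotheses) and `S_op`, `S_meas`,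
`S_troot`, `S_sep` (proved, see `S_closeb`).

Proof. `ε1` small (`ε1 = ε/20`): `b0` from `S_clip` for `θ, ε1`, `h0' = h0 + |a| (n + 2) + 1` (norm of the tree
and of the network `t' = t + a kσ σ` without potentials), `ρ = |α| + |β| + 1` and the constants `c, C` of `Fr`
(`‖g z‖ ≤ C`, `c ≤ Im g z`; replace `C` by `max C 1`). Take `N', R', σ` of `S_netb` for `ε1` and `b0`. For
`b ≤ b0` use `S_netb` directly (`1 ≤ b`). For `b > b0`: the tree bounds for the level `b` give those for the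
level `b0` with `e1 = (1 + ε1) e + ε1` (`S_clip` on `Vt`, `V W v = (W v.1).2 v.2`, law `ν` at the root; if
`e1 > 1`, i.e. `e > 1 - 2 ε1`, apply `S_netb` with `min e1 1`... simplest: assume `e ≤ 1/2`), `S_netb` gives
`PNb b0`, with `e2 = (1 + ε1) e1 + ε1`, and `S_clip` on the lattice (`T ω = Op (t' (· + ph) (· + ph))`,
`V ω = ω.2`) gives `PNb b` with `(1 + ε1) e2 + ε1 ≤ (1 + ε) e + ε`. -/
def S_netU : Prop :=
  ∀ (d : ℕ) (g : ℂ → ℂ) (α β c C : ℝ), Fr g α β c C → ∀ θ ε : ℝ, 0 < θ → θ ≤ 1 → 0 < ε → ε ≤ 1 →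
    ∀ (N R n : ℕ) (t : Lt (d + 1) → Lt (d + 1) → ℝ) (a h0 : ℝ), 1 ≤ N → Net N R h0 t →
    ∃ (N' R' : ℕ) (σ : Fin (n + 1) → Lt (d + 1) → Lt (d + 1)), 0 < N' ∧ N ∣ N' ∧
      (∀ j x, σ j (σ j x) = x) ∧ Net N' R' (|a| * (n + 1)) (fun x y => a * kσ σ x y) ∧
      ∀ b : ℝ, 1 ≤ b → ∀ (ν : Measure ℝ) [IsProbabilityMeasure ν], Ms 1 ν → ∀ e : ℝ, 0 ≤ e →
        e ≤ 1 / 2 →
        (∀ z : ℂ, α ≤ z.re → z.re ≤ β → θ ≤ z.im → z.im ≤ 1 →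
          ∫ W, hu (GB (kNb (N := N) b t) true 0 a W z) (g z) ^ 2
            ∂(Measure.infinitePi fun _ : List (Ix (Lt (d + 1)) n) => PO (d + 1) N ν) ≤ e) →
        PNb b N' (fun x y => t x y + a * kσ σ x y) ν g α β θ 1 ((1 + ε) * e + ε)

end Pool.Agent.H121.GA
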