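import Pool.Agent.H121.GA.It
import Pool.Agent.H121.GA.IfB
import Pool.Agent.H121.MY.Weak

/-! Project GA: removing the clip level. -/

set_option autoImplicit false
set_option linter.unusedSectionVars false

open scoped BigOperators InnerProductSpace Topology ENNReal
open Filter MeasureTheory

namespace Pool.Agent.H121.GA

open Pool.Agent.Y662.TR (LL Cf Mw dv hu hu_nonneg clp clp_eq clp_abs lmk ll_inner ll_ext
  ll_summable dv_apply sub_coord smul_coord Mw_apply add_coord)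
open Pool.Agent.TH369.AN (Rz rz_eq rz_uniq)
open Pool.Agent.H987.Z (Rs Gr Fr gZ HV S_green SqS IsSp Bd hu_meas)
open Pool.Agent.H987.Y

/-! ### function level -/

section fn

variable {X : Type}

theorem spr_of (hru : S_ruA) (A : (X → ℂ) → X → ℂ) (T : LL X →L[ℂ] LL X) (hT : Rs T) (V : X → ℝ)
    (hA : ∀ (u : LL X) (x : X), A (fun y => u y) x = T u x + ((V x : ℝ) : ℂ) * u x) (f : X → ℂ)
    (hf : SqS f) (m : Measure ℝ) (hm : IsSp A f m) : SpR (RU T V) (lmk f hf) m := by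
  refine ⟨hm.1, fun z hz => ?_⟩
  obtain ⟨u, hu, h1, h2⟩ := hm.2 z hz
  have h3 : lmk u hu = RU T V z (lmk f hf) := by
    refine (hru X T hT V z hz).2.2.2 _ _ fun x => ?_
    rw [← hA]
    exact h1 x
  rw [← h3, h2, ← (ll_inner (lmk f hf) (lmk u hu)).tsum_eq]
  rfl

theorem of_spr (hru : S_ruA) (A : (X → ℂ) → X → ℂ) (T : LL X →L[ℂ] LL X) (hT : Rs T) (V : X → ℝ)
    (hA : ∀ (u : LL X) (x : X), A (fun y => u y) x = T u x + ((V x : ℝ) : ℂ) * u x) (f : X → ℂ)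
    (hf : SqS f) (m : Measure ℝ) (hm : SpR (RU T V) (lmk f hf) m) : IsSp A f m := by
  refine ⟨hm.1, fun z hz => ?_⟩
  obtain ⟨u, hu⟩ : ∃ u, u = RU T V z (lmk f hf) := ⟨_, rfl⟩
  refine ⟨fun x => u x, ll_summable u, fun x => ?_, ?_⟩
  · rw [hA]
    have h1 := (hru X T hT V z hz).2.2.1 (lmk f hf) x
    rw [← hu] at h1
    exact h1
  · rw [← hm.2 z hz, ← hu, ← (ll_inner (lmk f hf) u).tsum_eq]
    rfl

end fn

/-! ### the families -/

section fam

variable {d : ℕ} {Y : Type} [MeasurableSpace Y] (K : Y → Lt d → Lt d → ℝ)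

theorem meas_dgb (b : ℝ) (x y : Lt d) : Measurable fun V : Lt d → ℝ => dgb b V x y := by
  unfold dgb
  by_cases hxy : x = y
  · simp only [if_pos hxy]
    have h1 : Measurable fun v : ℝ => clp b v := by
      unfold clp
      fun_prop
    exact h1.comp (measurable_pi_apply x)
  · simp only [if_neg hxy]
    exact measurable_const

/-- the family of kernels with potentials, clipped at `b` -/
noncomputable def kqb (b : ℝ) (q : ℝ × Y × (Lt d → ℝ)) (x y : Lt d) : ℝ :=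
  K q.2.1 x y + dgb b (fun x => q.1 * q.2.2 x) x y

/-- the family of kernels with potentials, clipped at `b` -/
noncomputable def krb (b : ℝ) (q : Y × (Lt d → ℝ)) (x y : Lt d) : ℝ := K q.1 x y + dgb b q.2 x y

theorem ker_kqb (hopb : S_opb) {h b : ℝ} (hb : 0 ≤ b) (hK : ∀ y, Ker h (K y))
    (q : ℝ × Y × (Lt d → ℝ)) : Ker (h + b) (kqb K b q) := (hopb.1 _ _ h b (hK q.2.1) hb _).1

theorem ker_krb (hopb : S_opb) {h b : ℝ} (hb : 0 ≤ b) (hK : ∀ y, Ker h (K y))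
    (q : Y × (Lt d → ℝ)) : Ker (h + b) (krb K b q) := (hopb.1 _ _ h b (hK q.1) hb _).1

theorem meas_kqb (b : ℝ) (hKm : ∀ x x', Measurable fun y => K y x x') (x y : Lt d) :
    Measurable fun q => kqb K b q x y := by
  unfold kqb
  refine Measurable.add ((hKm x y).comp (measurable_fst.comp measurable_snd)) ?_
  have h1 : Measurable fun q : ℝ × Y × (Lt d → ℝ) => fun x : Lt d => q.1 * q.2.2 x :=
    measurable_pi_iff.2 fun w =>
      measurable_fst.mul ((measurable_pi_apply w).comp (measurable_snd.comp measurable_snd))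
  exact (meas_dgb b x y).comp h1

theorem meas_krb (b : ℝ) (hKm : ∀ x x', Measurable fun y => K y x x') (x y : Lt d) :
    Measurable fun q => krb K b q x y := by
  unfold krb
  exact ((hKm x y).comp measurable_fst).add ((meas_dgb b x y).comp measurable_snd)

theorem int_boundb (hop : S_op) (hopb : S_opb) (hmeas : S_meas) (hg : S_green) (ρ : Measure Y)
    [IsProbabilityMeasure ρ] (h : ℝ) (h0 : 0 ≤ h) (hK : ∀ y, Ker h (K y))
    (hKm : ∀ x x', Measurable fun y => K y x x') (μ : Measure ℝ) [IsProbabilityMeasure μ]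
    (lam0 e : ℝ) (z g : ℂ) (hz : 0 < z.im) (hgi : 0 < g.im) (x : Lt d) (b : ℝ) (hb : 1 ≤ b)
    (l0 : ℝ) (hμ : ∀ t : ℝ, |t| ≤ l0 → Ms lam0 (μ.map fun v => t * v))
    (hmain : ∀ (ν : Measure ℝ) [IsProbabilityMeasure ν], Ms lam0 ν →
      ∫ q, hu (Gr (Op (krb K b q)) z x x) g ^ 2
        ∂(ρ.prod (Measure.infinitePi fun _ : Lt d => ν)) ≤ e)
    (Pl : Measure ℝ) [IsProbabilityMeasure Pl] (hPl : ∀ᵐ t ∂Pl, t ∈ Set.Ioc 0 l0) :
    Integrable (fun q => hu (Gr (Op (kqb K b q)) z x x) g ^ 2)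
      (Pl.prod (ρ.prod (Measure.infinitePi fun _ : Lt d => μ))) ∧
    ∫ q, hu (Gr (Op (kqb K b q)) z x x) g ^ 2
      ∂(Pl.prod (ρ.prod (Measure.infinitePi fun _ : Lt d => μ))) ≤ e := by
  have hb0 : 0 ≤ b := zero_le_one.trans hb
  have hb' := bd_op hop hmeas hg (kqb K b) (h + b) (by linarith) (ker_kqb K hopb hb0 hK)
    (meas_kqb K b hKm) z hz x
  have hi := hb'.int2 hgi (Pl.prod (ρ.prod (Measure.infinitePi fun _ : Lt d => μ)))
  refine ⟨hi, ?_⟩
  rw [integral_prod _ hi]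
  have hle : ∀ᵐ t ∂Pl, ∫ r, hu (Gr (Op (kqb K b (t, r))) z x x) g ^ 2
      ∂(ρ.prod (Measure.infinitePi fun _ : Lt d => μ)) ≤ e := by
    filter_upwards [hPl] with t ht
    have hνp : IsProbabilityMeasure (μ.map fun s : ℝ => t * s) :=
      Measure.isProbabilityMeasure_map (by fun_prop)
    have h8 := hmain (μ.map fun s : ℝ => t * s) (hμ t (by rw [abs_of_pos ht.1]; exact ht.2))
    have hGm : Measurable fun q : Y × (Lt d → ℝ) => hu (Gr (Op (krb K b q)) z x x) g ^ 2 :=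
      (hu_meas (hmeas _ _ (krb K b) (h + b) (ker_krb K hopb hb0 hK) (meas_krb K b hKm) z x x
        hz.ne') _).pow_const 2
    rw [scale_prod ρ μ t _ hGm] at h8
    exact h8
  calc ∫ t, ∫ r, hu (Gr (Op (kqb K b (t, r))) z x x) g ^ 2
        ∂(ρ.prod (Measure.infinitePi fun _ : Lt d => μ)) ∂Pl ≤ ∫ _, e ∂Pl :=
        integral_mono_ae hi.integral_prod_left (integrable_const _) hle
    _ = e := by simp

theorem op_kqb (hopb : S_opb) {h b : ℝ} (hb : 0 ≤ b) (hK : ∀ y, Ker h (K y))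
    (q : ℝ × Y × (Lt d → ℝ)) : Op (kqb K b q) = HW (Op (K q.2.1)) b fun x => q.1 * q.2.2 x :=
  (hopb.1 _ _ h b (hK q.2.1) hb _).2

theorem gr_tends (hru : S_ruA) {ι : Type} (T : LL ι →L[ℂ] LL ι) (hT : Rs T) (V : ι → ℝ) (z : ℂ)
    (hz : z.im ≠ 0) (x y : ι) :
    Tendsto (fun n : ℕ => Gr (HW T (n : ℝ) V) z x y) atTop (𝓝 (GU T V z x y)) := by
  have h1 := (hru ι T hT V z hz).2.1
  have h2 : Tendsto (fun n : ℕ => Rz (HW T (n : ℝ) V) z (dv y)) atTop (𝓝 (RU T V z (dv y))) :=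
    ((ContinuousLinearMap.apply ℂ (LL ι) (dv y)).continuous.tendsto _).comp h1
  exact ((Pool.Agent.Y662.TR.ev x).continuous.tendsto _).comp h2

theorem hu_tends {α : Type} {F : Filter α} (f : α → ℂ) (a g : ℂ) (ha : 0 < a.im) (hg : 0 < g.im)
    (h : Tendsto f F (𝓝 a)) : Tendsto (fun n => hu (f n) g) F (𝓝 (hu a g)) := by
  unfold hu
  refine Tendsto.div ?_ ?_ (mul_pos ha hg).ne'
  · exact ((h.sub_const g).norm).pow 2
  · exact ((Complex.continuous_im.tendsto a).comp h).mul_const g.im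

/-- **the bound without clipping** -/
theorem lint_bound (hop : S_op) (hopb : S_opb) (hmeas : S_meas) (hg : S_green) (hru : S_ruA)
    (hsite : S_site) (hmU : S_mU)
    (ρ : Measure Y) [IsProbabilityMeasure ρ] (h : ℝ) (h0 : 0 ≤ h) (hK : ∀ y, Ker h (K y))
    (hKm : ∀ x x', Measurable fun y => K y x x') (μ : Measure ℝ) [IsProbabilityMeasure μ]
    (lam0 e : ℝ) (z g : ℂ) (hz : 0 < z.im) (hgi : 0 < g.im) (x : Lt d)
    (l0 : ℝ) (hμ : ∀ t : ℝ, |t| ≤ l0 → Ms lam0 (μ.map fun v => t * v))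
    (hmain : ∀ b : ℝ, 1 ≤ b → ∀ (ν : Measure ℝ) [IsProbabilityMeasure ν], Ms lam0 ν →
      ∫ q, hu (Gr (Op (krb K b q)) z x x) g ^ 2
        ∂(ρ.prod (Measure.infinitePi fun _ : Lt d => ν)) ≤ e)
    (Pl : Measure ℝ) [IsProbabilityMeasure Pl] (hPl : ∀ᵐ t ∂Pl, t ∈ Set.Ioc 0 l0) :
    ∫⁻ q, ENNReal.ofReal (hu (GU (Op (K q.2.1)) (fun y => q.1 * q.2.2 y) z x x) g ^ 2)
      ∂(Pl.prod (ρ.prod (Measure.infinitePi fun _ : Lt d => μ))) ≤ ENNReal.ofReal e := by
  obtain ⟨P, hP⟩ : ∃ P, P = Pl.prod (ρ.prod (Measure.infinitePi fun _ : Lt d => μ)) := ⟨_, rfl⟩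
  have hrs : ∀ y, Rs (Op (K y)) := fun y => (hop _ _ _ (hK y)).2.2.1
  obtain ⟨f, hf⟩ : ∃ f : ℕ → (ℝ × Y × (Lt d → ℝ)) → ℝ≥0∞, f = fun (n : ℕ) q =>
      ENNReal.ofReal (hu (Gr (Op (kqb K ((n : ℝ) + 1) q)) z x x) g ^ 2) := ⟨_, rfl⟩
  have hlim : ∀ q, Tendsto (fun n => f n q) atTop
      (𝓝 (ENNReal.ofReal (hu (GU (Op (K q.2.1)) (fun y => q.1 * q.2.2 y) z x x) g ^ 2))) := by
    intro q
    rw [hf]
    refine (ENNReal.continuous_ofReal.tendsto _).comp ?_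
    refine Tendsto.pow ?_ 2
    refine hu_tends _ _ g ((hsite _ _ (hrs q.2.1)).1 _ z x x hz).1 hgi ?_
    have h1 := (tendsto_add_atTop_iff_nat 1).2
      (gr_tends hru _ (hrs q.2.1) (fun y => q.1 * q.2.2 y) z hz.ne' x x)
    refine h1.congr fun n => ?_
    rw [op_kqb K hopb (by positivity : (0 : ℝ) ≤ (n : ℝ) + 1) hK q]
    push_cast
    rfl
  have hfm : ∀ n, Measurable (f n) := by
    intro n
    rw [hf]
    exact ((hu_meas (hmeas _ _ (kqb K ((n : ℝ) + 1)) (h + ((n : ℝ) + 1))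
      (ker_kqb K hopb (by positivity) hK) (meas_kqb K _ hKm) z x x hz.ne') _).pow_const
        2).ennreal_ofReal
  have hfi : ∀ n, ∫⁻ q, f n q ∂P ≤ ENNReal.ofReal e := by
    intro n
    obtain ⟨h1, h2⟩ := int_boundb K hop hopb hmeas hg ρ h h0 hK hKm μ lam0 e z g hz hgi x
      ((n : ℝ) + 1) (by linarith [(Nat.cast_nonneg n : (0 : ℝ) ≤ n)]) l0 hμ
      (fun ν _ hν => hmain _ (by linarith [(Nat.cast_nonneg n : (0 : ℝ) ≤ n)]) ν hν) Pl hPl
    rw [hf, hP]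
    rw [← ofReal_integral_eq_lintegral_ofReal h1 (Eventually.of_forall fun q => sq_nonneg _)]
    exact ENNReal.ofReal_le_ofReal h2
  rw [← hP]
  calc ∫⁻ q, ENNReal.ofReal (hu (GU (Op (K q.2.1)) (fun y => q.1 * q.2.2 y) z x x) g ^ 2) ∂P =
        ∫⁻ q, liminf (fun n => f n q) atTop ∂P := by
        refine lintegral_congr fun q => ?_
        rw [(hlim q).liminf_eq]
    _ ≤ liminf (fun n => ∫⁻ q, f n q ∂P) atTop := lintegral_liminf_le hfm
    _ ≤ ENNReal.ofReal e := by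
        refine liminf_le_of_frequently_le' (Filter.Eventually.frequently ?_)
        exact Eventually.of_forall hfi

end fam

end Pool.Agent.H121.GA
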