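import Pool.Agent.H121.GA.Weak

/-! Project GA: localization at large energies and at strong disorder, unbounded potentials. -/

set_option autoImplicit false
set_option linter.unusedSectionVars false

open scoped BigOperators InnerProductSpace Topology ENNReal
open Filter MeasureTheory

namespace Pool.Agent.H121.GA

open Pool.Agent.Y662.TR (LL Cf Mw dv hu lmk ll_ext ll_summable dv_apply)
open Pool.Agent.H987.Z (Rs SqS IsSp)
open Pool.Agent.H987.Y
open Pool.Agent.H121.Z987 (wt)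
open Pool.Agent.H121.ME (Dec Gra wt_pos wt_cont W_fin)
open Pool.Agent.H121.MY (Cls HamT adj kt kt_ker kt_nn kt_pow kt_hasSum kt_ap adj_act PPi S_sigY
  refl_prod)

/-- a weight which is positive for `|E| > e` -/
noncomputable def wa (e E : ℝ) : ℝ := wt E * min 1 (max 0 (|E| - e))

theorem wa_cont (e : ℝ) : Continuous (wa e) := by
  unfold wa
  exact wt_cont.mul (by fun_prop)

theorem wa_nonneg (e E : ℝ) : 0 ≤ wa e E := by
  unfold wa
  have := (wt_pos E).le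
  have : (0 : ℝ) ≤ min 1 (max 0 (|E| - e)) := le_min zero_le_one (le_max_left _ _)
  positivity

theorem wa_le (e E : ℝ) : wa e E ≤ wt E := by
  unfold wa
  exact mul_le_of_le_one_right (wt_pos E).le (min_le_left _ _)

theorem wa_pos (e E : ℝ) : 0 < wa e E ↔ e < |E| := by
  unfold wa
  constructor
  · intro h
    by_contra hcon
    rw [max_eq_left (by linarith), min_eq_right (by norm_num), mul_zero] at h
    exact lt_irrefl _ h
  · intro h
    refine mul_pos (wt_pos E) (lt_min one_pos (lt_max_of_lt_right (by linarith)))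

/-- the operator of the Hamiltonian, without a bound for the potential -/
theorem hamt_opt {d : ℕ} {a m : ℕ → ℝ} {A : Lt d → Lt d → ℝ} (hop : S_op) (H : Cls d a m A)
    (lam : ℝ) (ω : Lt d → ℝ) (u : LL (Lt d)) (p : Lt d) :
    HamT A lam ω (fun y => u y) p = Op (kt A) u p + ((lam * ω p : ℝ) : ℂ) * u p := by
  rw [((hop _ _ _ (kt_ker H)).1 u p).2]
  have h1 := adj_act (fun y => u y) p
  have h2 := ((hop _ _ _ H.ker).1 u p).1
  have h3 : ∑' y, ((kt A p y : ℝ) : ℂ) * u y =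
      ∑ i : Fin d, (u (p + Pi.single i 1) + u (p - Pi.single i 1)) +
        ∑' y, ((A p y : ℝ) : ℂ) * u y := by
    rw [← (h1.add h2.hasSum).tsum_eq]
    refine tsum_congr fun y => ?_
    unfold kt
    push_cast
    ring
  rw [h3]
  rfl

/-- there is an eigenvalue in `I` -/
def EXi {X : Type} (H : (X → ℂ) → X → ℂ) (I : Set ℝ) : Prop :=
  ∃ (t : ℝ) (u : X → ℂ), t ∈ I ∧ SqS u ∧ (∃ p, u p ≠ 0) ∧ ∀ p, H u p = (t : ℂ) * u p

section core

variable (hop : S_op) (hru : S_ruA) (hrf : S_ruB) (hsite : S_site) (hmU : S_mU)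
  (hloc : S_locU) (hatom : S_atom) (hweyA : S_weyA) (hweyB : S_weyB)

include hop hru hrf hloc hatom hweyA hweyB in
theorem loc_core {d : ℕ} (hd : 1 ≤ d) {a m : ℕ → ℝ} {A : Lt d → Lt d → ℝ} (hA : Cls d a m A)
    (μ : Measure ℝ) [IsProbabilityMeasure μ] (hμp : ∀ a b : ℝ, a < b → 0 < μ (Set.Ioo a b))
    (lam s c S C e : ℝ) (hlam : 0 < lam) (hs : 0 < s) (hs1 : s < 1) (hcc : 0 < c * lam ^ s)
    (hS : S < c * lam ^ s) (hSd : S = 2 * (d : ℝ) + ∑' k, a k ^ s * m k) (hS0 : 0 ≤ S)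
    (hg : Gra μ lam s C)
    (hdec : ∀ z : ℂ, 0 < z.im → e < |z.re| → Dec μ lam s c z) :
    ∀ᵐ ω ∂(Measure.infinitePi fun _ : Lt d => μ), PPi (HamT A lam ω) {E | e < |E|} ∧
      ∀ x y : ℝ, x < y → Set.Ioo x y ⊆ {E | e < |E|} → EXi (HamT A lam ω) (Set.Ioo x y) := by
  have hK : Rs (Op (kt A)) := (hop _ _ _ (kt_ker hA)).2.2.1
  have h1 := hloc (wa e) (wa_cont e) (wa_nonneg e) (wa_le e) {E | e < |E|}
    (fun E hE => (wa_pos e E).1 hE) (Lt d) (Op (kt A)) hK lam s c S C hlam hs hs1 hcc hS hS0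
    (by rw [hSd]; exact kt_pow hA s hs hs1.le) μ hg hdec
  have hset : {E | 0 < wa e E} = {E | e < |E|} := by
    ext E
    exact wa_pos e E
  rw [hset] at h1
  have h2 := hweyB d (kt A) _ _ hd (kt_ker hA) (fun x => (kt_hasSum hA x).tsum_eq) (kt_ap hA) μ hμp
    lam hlam.ne'
  filter_upwards [h1, h2] with ω hω1 hω2
  have hAct : ∀ (u : LL (Lt d)) (x : Lt d), HamT A lam ω (fun y => u y) x =
      Op (kt A) u x + ((lam * ω x : ℝ) : ℂ) * u x := fun u x => hamt_opt hop hA lam ω u x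
  refine ⟨fun f m' hf hm => ?_, fun x y hxy hsub => ?_⟩
  · exact hω1 _ m' (spr_of hru _ _ hK (fun y => lam * ω y) hAct f hf m' hm)
  · obtain ⟨E, hE⟩ : ∃ E, E = (x + y) / 2 := ⟨_, rfl⟩
    obtain ⟨r, hr⟩ : ∃ r, r = (y - x) / 4 := ⟨_, rfl⟩
    have hr0 : 0 < r := by rw [hr]; linarith
    obtain ⟨u, f, hu0, hf, huf⟩ := hω2 E r hr0
    obtain ⟨p, hp⟩ := hweyA (Lt d) (Op (kt A)) hK (fun y => lam * ω y) E r u f hr0 hu0 hf huf
    have hI : Set.Ioo (E - 2 * r) (E + 2 * r) = Set.Ioo x y := by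
      rw [hE, hr]
      congr 1 <;> ring
    rw [hI] at hp
    obtain ⟨m', hm', -⟩ := (hrf _ _ hK fun y => lam * ω y).sp (dv p)
    have hm0 := hp m' hm'
    obtain ⟨N, hN, hmN⟩ := hω1 _ m' hm'
    have h3 : m' (Set.Ioo x y ∩ N) ≠ 0 := by
      intro h
      apply hm0
      rw [← Set.inter_union_sdiff (Set.Ioo x y) N]
      refine measure_union_null h (measure_mono_null ?_ hmN)
      exact Set.diff_subset_diff_left hsub
    obtain ⟨t, ht, htm⟩ : ∃ t ∈ Set.Ioo x y ∩ N, m' {t} ≠ 0 := by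
      by_contra hcon
      push Not at hcon
      apply h3
      have hc : (Set.Ioo x y ∩ N).Countable := hN.mono Set.inter_subset_right
      rw [← Set.biUnion_of_singleton (Set.Ioo x y ∩ N)]
      exact (measure_biUnion_null_iff hc).2 hcon
    obtain ⟨v, hv0, hv⟩ := hatom _ _ hK (fun y => lam * ω y) p m' hm' t htm
    refine ⟨t, fun q => v q, ht.1, ll_summable v, ?_, fun q => ?_⟩
    · by_contra hcon
      push Not at hcon
      exact hv0 (ll_ext hcon)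
    · rw [hAct, hv]

end core

/-- the decoupling inequality at large energies -/
theorem dec_tail (μ : Measure ℝ) [IsProbabilityMeasure μ] (s K δ lam e : ℝ) (hs : 0 < s)
    (hδ0 : 0 ≤ δ) (hδ1 : δ ≤ 1)
    (hlam : 0 < lam) (he : lam * K ≤ e)
    (htail : ∀ β : ℂ, β.im ≠ 0 →
      ∫⁻ v in {v : ℝ | K < |v|}, ENNReal.ofReal (‖(v : ℂ) - β‖ ^ (-s)) ∂μ ≤
        ENNReal.ofReal δ * ∫⁻ v : ℝ, ENNReal.ofReal (‖(v : ℂ) - β‖ ^ (-s)) ∂μ)
    (z : ℂ) (hz : e < |z.re|) : Dec μ lam s ((e / lam - K) ^ s * (1 - δ)) z := by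
  intro β hβ
  obtain ⟨x, hx⟩ : ∃ x, x = e / lam - K := ⟨_, rfl⟩
  have hx0 : 0 ≤ x := by
    rw [hx, sub_nonneg, le_div_iff₀ hlam]
    linarith
  rw [← hx]
  obtain ⟨W, hW⟩ : ∃ W, W = ∫⁻ v : ℝ, ENNReal.ofReal (‖(v : ℂ) - β‖ ^ (-s)) ∂μ := ⟨_, rfl⟩
  have hWf : W ≠ ∞ := by rw [hW]; exact W_fin μ s hs β hβ
  have hmeas : Measurable fun v : ℝ => ENNReal.ofReal (‖(v : ℂ) - β‖ ^ (-s)) := by
    refine Measurable.ennreal_ofReal ?_
    exact ((Complex.measurable_ofReal.sub_const β).norm).pow_const (-s)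
  have hset : MeasurableSet {v : ℝ | K < |v|} :=
    (isOpen_lt continuous_const continuous_abs).measurableSet
  have hsplit := lintegral_add_compl (μ := μ)
    (fun v : ℝ => ENNReal.ofReal (‖(v : ℂ) - β‖ ^ (-s))) hset
  have ht := htail β hβ
  rw [← hW] at hsplit ht
  -- the part inside
  have hin : ENNReal.ofReal (1 - δ) * W ≤
      ∫⁻ v in {v : ℝ | K < |v|}ᶜ, ENNReal.ofReal (‖(v : ℂ) - β‖ ^ (-s)) ∂μ := by
    have h1 : ENNReal.ofReal (1 - δ) = 1 - ENNReal.ofReal δ := by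
      rw [ENNReal.ofReal_sub _ hδ0, ENNReal.ofReal_one]
    rw [h1, ENNReal.sub_mul fun _ _ => hWf, one_mul, tsub_le_iff_right]
    calc W = _ := hsplit.symm
      _ ≤ ENNReal.ofReal δ * W +
          ∫⁻ v in {v : ℝ | K < |v|}ᶜ, ENNReal.ofReal (‖(v : ℂ) - β‖ ^ (-s)) ∂μ := by gcongr
      _ = _ := add_comm _ _
  have hpt : ∀ v : ℝ, v ∈ ({v : ℝ | K < |v|}ᶜ : Set ℝ) →
      ENNReal.ofReal (x ^ s) * ENNReal.ofReal (‖(v : ℂ) - β‖ ^ (-s)) ≤
        ENNReal.ofReal (‖(v : ℂ) - z / (lam : ℂ)‖ ^ s * ‖(v : ℂ) - β‖ ^ (-s)) := by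
    intro v hv
    have hvK : |v| ≤ K := not_lt.1 hv
    rw [← ENNReal.ofReal_mul (by positivity)]
    apply ENNReal.ofReal_le_ofReal
    refine mul_le_mul_of_nonneg_right ?_ (by positivity)
    refine Real.rpow_le_rpow hx0 ?_ hs.le
    have h2 := Complex.abs_re_le_norm ((v : ℂ) - z / (lam : ℂ))
    have h3 : ((v : ℂ) - z / (lam : ℂ)).re = v - z.re / lam := by
      rw [Complex.sub_re, Complex.ofReal_re, Complex.div_ofReal_re]
    rw [h3] at h2
    refine le_trans ?_ h2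
    have h4 : e / lam ≤ |z.re / lam| := by
      rw [abs_div, abs_of_pos hlam]
      gcongr
    have h5 : |z.re / lam| ≤ |v - z.re / lam| + |v| := by
      have h6 := abs_sub_abs_le_abs_sub (z.re / lam) v
      rw [abs_sub_comm] at h6
      linarith
    rw [hx]
    linarith
  rw [← hW]
  calc ENNReal.ofReal (x ^ s * (1 - δ)) * W =
        ENNReal.ofReal (x ^ s) * (ENNReal.ofReal (1 - δ) * W) := by
        rw [ENNReal.ofReal_mul (by positivity), mul_assoc]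
    _ ≤ ENNReal.ofReal (x ^ s) *
        ∫⁻ v in {v : ℝ | K < |v|}ᶜ, ENNReal.ofReal (‖(v : ℂ) - β‖ ^ (-s)) ∂μ := by gcongr
    _ = ∫⁻ v in {v : ℝ | K < |v|}ᶜ, ENNReal.ofReal (x ^ s) *
          ENNReal.ofReal (‖(v : ℂ) - β‖ ^ (-s)) ∂μ := by
        rw [lintegral_const_mul _ hmeas]
    _ ≤ ∫⁻ v in {v : ℝ | K < |v|}ᶜ,
          ENNReal.ofReal (‖(v : ℂ) - z / (lam : ℂ)‖ ^ s * ‖(v : ℂ) - β‖ ^ (-s)) ∂μ :=
        setLIntegral_mono' hset.compl hpt
    _ ≤ _ := setLIntegral_le_lintegral _ _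

/-- what is proved in the localized region -/
def LR {d : ℕ} (A : Lt d → Lt d → ℝ) (lam : ℝ) (μ : Measure ℝ) [IsProbabilityMeasure μ] (e : ℝ) :
    Prop :=
  ∀ᵐ ω ∂(Measure.infinitePi fun _ : Lt d => μ), PPi (HamT A lam ω) {E | e < |E|} ∧
    ∀ x y : ℝ, x < y → Set.Ioo x y ⊆ {E | e < |E|} → EXi (HamT A lam ω) (Set.Ioo x y)

/-- **localization** -/
theorem locG (hop : S_op) (hru : S_ruA) (hrf : S_ruB) (hloc : S_locU) (hatom : S_atom)
    (hweyA : S_weyA) (hweyB : S_weyB) (hgra : S_graD) (hdT : S_decT) (hdS : S_decS)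
    (hsig : S_sigY) (d : ℕ) (hd : 1 ≤ d) (a m : ℕ → ℝ) (ha : ∀ k, 0 ≤ a k) (hm : ∀ k, 0 ≤ m k)
    (hp : ∀ p : ℝ, 0 < p → Summable fun k => a k ^ p * m k) (D : ℝ) (hD : 0 < D) (e : ℝ)
    (he : 2 * (d : ℝ) + ∑' k, a k * m k < e) :
    ∃ lam0 lam1 : ℝ, 0 < lam0 ∧ 0 < lam1 ∧ ∀ A : Lt d → Lt d → ℝ, Cls d a m A →
      ∀ (μ : Measure ℝ) [IsProbabilityMeasure μ], (∀ a b : ℝ, a < b → 0 < μ (Set.Ioo a b)) →
      Dd D μ →
      (∀ lam : ℝ, 0 < lam → lam ≤ lam0 → LR A lam μ e) ∧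
      (∀ lam : ℝ, 0 < lam → ∃ e1 : ℝ, 0 < e1 ∧ LR A lam μ e1) ∧
      (∀ lam : ℝ, lam1 ≤ lam → LR A lam μ (-1)) := by
  obtain ⟨s, hs0, hs1, hs⟩ := hsig a m ha hm hp (2 * d) e (by positivity) he
  obtain ⟨S, hS⟩ : ∃ S, S = 2 * (d : ℝ) + ∑' k, a k ^ s * m k := ⟨_, rfl⟩
  rw [← hS] at hs
  have hS0 : 0 ≤ S := by
    rw [hS]
    have : 0 ≤ ∑' k, a k ^ s * m k :=
      tsum_nonneg fun k => mul_nonneg (Real.rpow_nonneg (ha k) _) (hm k)
    positivity
  have hcn : 0 ≤ ∑' k, a k * m k := tsum_nonneg fun k => mul_nonneg (ha k) (hm k)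
  have he0 : 0 < e := lt_of_le_of_lt (by positivity) he
  have hes : 0 < e ^ s := by positivity
  -- a small fraction
  obtain ⟨δ, hδ⟩ : ∃ δ : ℝ, δ = (1 - S / e ^ s) / 2 := ⟨_, rfl⟩
  have hq : S / e ^ s < 1 := by rwa [div_lt_one hes]
  have hq0 : 0 ≤ S / e ^ s := by positivity
  have hδ0 : 0 < δ := by rw [hδ]; linarith
  have hδ1 : δ < 1 := by rw [hδ]; linarith
  have hSδ : S < e ^ s * (1 - δ) := by
    have h1 : S = e ^ s * (S / e ^ s) := by field_simp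
    have h2 : S / e ^ s < 1 - δ := by rw [hδ]; linarith
    calc S = e ^ s * (S / e ^ s) := h1
      _ < e ^ s * (1 - δ) := mul_lt_mul_of_pos_left h2 hes
  obtain ⟨K, hK0, hK⟩ := hdT s D δ hs0 hs1 hD hδ0
  obtain ⟨c0, hc0, hc⟩ := hdS s D hs0 hs1 hD
  -- the smallness of `lam`
  obtain ⟨lam0, hl0, hl⟩ : ∃ lam0 : ℝ, 0 < lam0 ∧ ∀ lam : ℝ, 0 < lam → lam ≤ lam0 →
      lam * K ≤ e ∧ S < (e - lam * K) ^ s * (1 - δ) := by
    have h1 : Tendsto (fun lam : ℝ => (e - lam * K) ^ s * (1 - δ)) (𝓝 0)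
        (𝓝 ((e - 0 * K) ^ s * (1 - δ))) := by
      refine Tendsto.mul_const _ ?_
      refine Tendsto.rpow_const ?_ (Or.inr hs0.le)
      exact tendsto_const_nhds.sub (tendsto_id.mul_const K)
    rw [zero_mul, sub_zero] at h1
    have h2 := h1.eventually_const_lt hSδ
    obtain ⟨r, hr0, hr⟩ := Metric.eventually_nhds_iff.1 h2
    refine ⟨min (r / 2) (e / K), by positivity, fun lam h3 h4 => ⟨?_, hr ?_⟩⟩
    · have h5 := h4.trans (min_le_right _ _)
      rwa [le_div_iff₀ hK0] at h5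
    · rw [Real.dist_eq, sub_zero, abs_of_pos h3]
      have h5 := h4.trans (min_le_left _ _)
      linarith
  refine ⟨lam0, ((S + 1) / c0) ^ (1 / s), hl0, by positivity, ?_⟩
  intro A hA μ _ hμp hμD
  have hgr : ∀ lam : ℝ, 0 < lam → ∃ C : ℝ, Gra μ lam s C := by
    intro lam hlam
    obtain ⟨C, -, hC⟩ := hgra s D lam hs0 hs1 hD hlam
    exact ⟨C, hC μ hμD⟩
  -- the general tail statement
  have hgen : ∀ lam e' : ℝ, 0 < lam → lam * K ≤ e' → S < (e' - lam * K) ^ s * (1 - δ) →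
      LR A lam μ e' := by
    intro lam e' hlam h1 h2
    obtain ⟨C, hC⟩ := hgr lam hlam
    have h3 : (e' / lam - K) ^ s * (1 - δ) * lam ^ s = (e' - lam * K) ^ s * (1 - δ) := by
      have h4 : e' / lam - K = (e' - lam * K) / lam := by field_simp
      rw [h4, Real.div_rpow (by linarith) hlam.le]
      field_simp
    exact loc_core hop hru hrf hloc hatom hweyA hweyB hd hA μ hμp lam s
      ((e' / lam - K) ^ s * (1 - δ)) S C e' hlam hs0 hs1 (by rw [h3]; linarith) (by rw [h3]; exact h2)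
      hS hS0 hC (fun z _ hz => dec_tail μ s K δ lam e' hs0 hδ0.le hδ1.le hlam h1 (hK μ hμD) z hz)
  refine ⟨fun lam h1 h2 => ?_, fun lam h1 => ?_, fun lam h1 => ?_⟩
  · obtain ⟨h3, h4⟩ := hl lam h1 h2
    exact hgen lam e h1 h3 h4
  · refine ⟨e + lam * K, by positivity, hgen lam (e + lam * K) h1 (by linarith) ?_⟩
    have h3 : e + lam * K - lam * K = e := by ring
    rw [h3]
    exact hSδ
  · have hlam0 : 0 < lam := lt_of_lt_of_le (by positivity) h1
    obtain ⟨C, hC⟩ := hgr lam hlam0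
    have hcl : S + 1 ≤ c0 * lam ^ s := by
      have h5 : (S + 1) / c0 ≤ lam ^ s := by
        calc (S + 1) / c0 = (((S + 1) / c0) ^ (1 / s)) ^ s := by
              rw [← Real.rpow_mul (by positivity), one_div_mul_cancel hs0.ne', Real.rpow_one]
          _ ≤ lam ^ s := Real.rpow_le_rpow (by positivity) h1 hs0.le
      rw [div_le_iff₀ hc0] at h5
      linarith
    exact loc_core hop hru hrf hloc hatom hweyA hweyB hd hA μ hμp lam s c0 S C (-1) hlam0 hs0 hs1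
      (by positivity) (by linarith) hS hS0 hC (fun z _ _ β hβ => hc μ hμD _ β hβ)

end Pool.Agent.H121.GA
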